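import Mathlib

/-!
Criteria for complete positivity and contractivity, and a criterion for the completely positive
approximation property.
-/

open scoped ComplexOrder InnerProductSpace CStarAlgebra WithCStarModule
open CStarMatrix

namespace Pool.Agent.P.MP_b9f29c_an

lemma cstarMatrix_sum_apply {m n B σ : Type} [AddCommMonoid B] (s : Finset σ)
    (M : σ → CStarMatrix m n B) (i : m) (j : n) : (∑ l ∈ s, M l) i j = ∑ l ∈ s, M l i j :=
  Matrix.sum_apply i j s M

section

variable {A B : Type} [NonUnitalCStarAlgebra A] [PartialOrder A] [StarOrderedRing A]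
  [NonUnitalCStarAlgebra B] [PartialOrder B] [StarOrderedRing B]

lemma exists_eq_star_mul_self {a : B} (ha : 0 ≤ a) : ∃ b, a = star b * b :=
  CStarAlgebra.nonneg_iff_eq_star_mul_self.1 ha

lemma gram_nonneg {k : Type} [Fintype k] (y : k → B) (M : CStarMatrix k k B)
    (hM : ∀ p q, M p q = star (y p) * y q) : 0 ≤ M := by
  classical
  rcases isEmpty_or_nonempty k with hk | ⟨⟨p₀⟩⟩
  · exact le_of_eq (CStarMatrix.ext fun i => isEmptyElim i)
  · let Y : CStarMatrix k k B := ofMatrix (Matrix.of fun l q => if l = p₀ then y q else 0)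
    have : M = star Y * Y := by
      ext p q
      rw [hM, CStarMatrix.mul_apply, Finset.sum_eq_single p₀]
      · simp [Y, CStarMatrix.star_apply]
      · intro l _ hl
        simp [Y, hl]
      · simp
    rw [this]
    exact star_mul_self_nonneg Y

lemma sum_gram_nonneg {k σ : Type} [Fintype k] [Fintype σ] (y : σ → k → B)
    (M : CStarMatrix k k B) (hM : ∀ p q, M p q = ∑ l, star (y l p) * y l q) : 0 ≤ M := by
  have : M = ∑ l, ofMatrix (Matrix.of fun p q => star (y l p) * y l q) := by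
    ext p q
    rw [hM, cstarMatrix_sum_apply]
    rfl
  rw [this]
  exact Finset.sum_nonneg fun l _ => gram_nonneg (y l) _ fun p q => rfl

/-- A linear map that is positive on Gram matrices is completely positive. -/
def cpOfGram (φ : A →ₗ[ℂ] B)
    (h : ∀ (k : ℕ) (x : Fin k → A),
      0 ≤ (ofMatrix (Matrix.of fun p q => φ (star (x p) * x q)) : CStarMatrix _ _ B)) :
    A →CP B where
  toLinearMap := φ
  map_cstarMatrix_nonneg' k M hM := by
    obtain ⟨N, rfl⟩ := exists_eq_star_mul_self hM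
    have : (star N * N).map φ =
        ∑ l, ofMatrix (Matrix.of fun p q => φ (star (N l p) * N l q)) := by
      ext p q
      rw [cstarMatrix_sum_apply, CStarMatrix.map_apply, CStarMatrix.mul_apply, map_sum]
      rfl
    rw [this]
    exact Finset.sum_nonneg fun l _ => h k (N l)

lemma cpOfGram_apply (φ : A →ₗ[ℂ] B) (h) (x : A) : cpOfGram φ h x = φ x := rfl

end

lemma cp_norm_le {A B : Type} [CStarAlgebra A] [PartialOrder A] [StarOrderedRing A]
    [CStarAlgebra B] [PartialOrder B] [StarOrderedRing B] (φ : A →CP B) (h1 : ‖φ 1‖ ≤ 1) (x : A) :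
    ‖φ x‖ ≤ ‖x‖ := by
  let z : Fin 2 → A := ![1, x]
  have hM := φ.map_cstarMatrix_nonneg _
    (gram_nonneg z (ofMatrix (Matrix.of fun p q => star (z p) * z q)) fun p q => rfl)
  obtain ⟨N, hN⟩ := exists_eq_star_mul_self hM
  have hent : ∀ p q, φ (star (z p) * z q) = ∑ l, star (N l p) * N l q := by
    intro p q
    have := congrFun (congrFun hN p) q
    exact this
  let u : Fin 2 → C⋆ᵐᵒᵈ(B, Fin 2 → B) := fun p =>
    (WithCStarModule.equiv _ _).symm fun l => star (N l p)
  have hin : ∀ p q, ⟪u q, u p⟫_B = φ (star (z p) * z q) := by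
    intro p q
    rw [hent, WithCStarModule.pi_inner]
    simp [u, WithCStarModule.inner_def]
  have h0 : ‖u 0‖ ^ 2 ≤ 1 := by
    rw [CStarModule.norm_sq_eq (A := B), hin]
    simpa [z] using h1
  have h2 : ‖u 1‖ ^ 2 ≤ ‖x‖ ^ 2 := by
    rw [CStarModule.norm_sq_eq (A := B), hin]
    have := (PositiveLinearMap.ofClass φ).norm_apply_le_of_nonneg (star x * x)
      (star_mul_self_nonneg x)
    refine le_trans this ?_
    rw [CStarRing.norm_star_mul_self, sq]
    exact mul_le_of_le_one_left (by positivity) h1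
  have h3 := CStarModule.norm_inner_le (A := B) (C⋆ᵐᵒᵈ(B, Fin 2 → B)) (x := u 1) (y := u 0)
  rw [hin] at h3
  have h4 : ‖u 0‖ ≤ 1 := by nlinarith [norm_nonneg (u 0)]
  have h5 : ‖u 1‖ ≤ ‖x‖ := by nlinarith [norm_nonneg (u 1), norm_nonneg x]
  have h6 : ‖φ x‖ ≤ ‖u 1‖ * ‖u 0‖ := by simpa [z] using h3
  calc ‖φ x‖ ≤ ‖u 1‖ * ‖u 0‖ := h6
    _ ≤ ‖x‖ * 1 := by gcongr
    _ = ‖x‖ := mul_one _

lemma scalar_gram {H k κ : Type} [NormedAddCommGroup H] [InnerProductSpace ℂ H] [Fintype k]
    [Fintype κ] (v : k → κ → H) :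
    ∃ (σ : Type) (_ : Fintype σ) (y : σ → k → CStarMatrix κ κ ℂ),
      ∀ p q c c', (∑ l, star (y l p) * y l q) c c' = ⟪v p c, v q c'⟫_ℂ := by
  classical
  rcases isEmpty_or_nonempty κ with hk | ⟨⟨c₀⟩⟩
  · exact ⟨Unit, inferInstance, fun _ _ => 0, fun p q c => isEmptyElim c⟩
  let E : Submodule ℂ H := Submodule.span ℂ (Set.range fun pc : k × κ => v pc.1 pc.2)
  have : FiniteDimensional ℂ E := FiniteDimensional.span_of_finite ℂ (Set.finite_range _)
  let b := stdOrthonormalBasis ℂ E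
  let w : k → κ → E := fun p c => ⟨v p c, Submodule.subset_span ⟨(p, c), rfl⟩⟩
  refine ⟨_, inferInstance, fun i p =>
    ofMatrix (Matrix.of fun l c => if l = c₀ then ⟪b i, w p c⟫_ℂ else 0), ?_⟩
  intro p q c c'
  rw [cstarMatrix_sum_apply]
  have : ⟪v p c, v q c'⟫_ℂ = ⟪w p c, w q c'⟫_ℂ := rfl
  rw [this, ← b.sum_inner_mul_inner]
  refine Finset.sum_congr rfl fun i _ => ?_
  rw [CStarMatrix.mul_apply, Finset.sum_eq_single c₀]
  · simp [CStarMatrix.star_apply]
  · intro l _ hl
    simp [hl]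
  · simp

/-- Explicit completely positive contractive factorisation through a matrix algebra. -/
theorem exists_cp_factor {A H J ι R : Type} [CStarAlgebra A] [PartialOrder A] [StarOrderedRing A]
    [NormedAddCommGroup H] [InnerProductSpace ℂ H] [CompleteSpace H] [Fintype J] [Fintype ι]
    [Fintype R] (π : J → A →⋆ₐ[ℂ] (H →L[ℂ] H)) (e : ι → H) (he : Orthonormal ℂ e)
    (a : J → R → ι → A) (ha : ‖∑ j, ∑ r, ∑ i, a j r i * star (a j r i)‖ ≤ 1) :
    ∃ (n : ℕ) (φ : A →CP CStarMatrix (Fin n) (Fin n) ℂ) (ψ : CStarMatrix (Fin n) (Fin n) ℂ →CP A),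
      (∀ x, ‖φ x‖ ≤ ‖x‖) ∧ (∀ y, ‖ψ y‖ ≤ ‖y‖) ∧
      ∀ x, ψ (φ x) = ∑ j, ∑ r, ∑ i, ∑ i', ⟪e i, π j x (e i')⟫_ℂ • (a j r i * star (a j r i')) := by
  classical
  let n := Fintype.card (J × ι)
  let σ : Fin n ≃ J × ι := (Fintype.equivFin (J × ι)).symm
  let φ₀ : A →ₗ[ℂ] CStarMatrix (Fin n) (Fin n) ℂ :=
    { toFun := fun x => ofMatrix (Matrix.of fun c c' =>
        if (σ c).1 = (σ c').1 then ⟪e (σ c).2, π (σ c).1 x (e (σ c').2)⟫_ℂ else 0)
      map_add' := fun x y => by
        ext c c'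
        by_cases h : (σ c).1 = (σ c').1 <;> simp [h, inner_add_right]
      map_smul' := fun z x => by
        ext c c'
        by_cases h : (σ c).1 = (σ c').1 <;> simp [h, inner_smul_right] }
  have hφ₀ : ∀ x c c', φ₀ x c c' =
      if (σ c).1 = (σ c').1 then ⟪e (σ c).2, π (σ c).1 x (e (σ c').2)⟫_ℂ else 0 :=
    fun x c c' => rfl
  let φ : A →CP CStarMatrix (Fin n) (Fin n) ℂ := cpOfGram φ₀ (by
    intro k x
    have hj : ∀ j : J, ∃ (τ : Type) (_ : Fintype τ) (y : τ → Fin k → CStarMatrix (Fin n) (Fin n) ℂ),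
        ∀ p q c c', (∑ l, star (y l p) * y l q) c c' =
          ⟪if (σ c).1 = j then π j (x p) (e (σ c).2) else 0,
            if (σ c').1 = j then π j (x q) (e (σ c').2) else 0⟫_ℂ := fun j =>
      scalar_gram fun p c => if (σ c).1 = j then π j (x p) (e (σ c).2) else 0
    choose τ hτ y hy using hj
    refine sum_gram_nonneg (σ := Σ j, τ j) (fun l p => y l.1 l.2 p) _ ?_
    intro p q
    ext c c'
    rw [Fintype.sum_sigma, cstarMatrix_sum_apply]
    simp only [hy]
    change φ₀ _ c c' = _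
    rw [hφ₀, Finset.sum_eq_single (σ c).1]
    · by_cases h : (σ c).1 = (σ c').1
      · rw [if_pos h, if_pos rfl, if_pos h.symm, map_mul, map_star,
          ContinuousLinearMap.star_eq_adjoint, mul_apply_eq_comp,
          ContinuousLinearMap.adjoint_inner_right]
      · rw [if_neg h, if_neg (Ne.symm h), inner_zero_right]
    · intro j _ hj
      rw [if_neg (Ne.symm hj), inner_zero_left]
    · simp)
  let b : J × R → Fin n → A := fun jr c => if (σ c).1 = jr.1 then a jr.1 jr.2 (σ c).2 else 0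
  let ψ₀ : CStarMatrix (Fin n) (Fin n) ℂ →ₗ[ℂ] A :=
    { toFun := fun y => ∑ jr : J × R, ∑ c, ∑ c', y c c' • (b jr c * star (b jr c'))
      map_add' := fun x y => by
        simp [add_smul, Finset.sum_add_distrib]
      map_smul' := fun z x => by
        simp [Finset.smul_sum, smul_smul] }
  have hψ₀ : ∀ y, ψ₀ y = ∑ jr : J × R, ∑ c, ∑ c', y c c' • (b jr c * star (b jr c')) :=
    fun y => rfl
  have hψ₁ : ∀ y : CStarMatrix (Fin n) (Fin n) ℂ, ψ₀ y = ∑ j, ∑ r, ∑ i, ∑ i',
      y (σ.symm (j, i)) (σ.symm (j, i')) • (a j r i * star (a j r i')) := by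
    intro y
    rw [hψ₀, Fintype.sum_prod_type]
    refine Finset.sum_congr rfl fun j _ => Finset.sum_congr rfl fun r _ => ?_
    rw [← σ.symm.sum_comp, Fintype.sum_prod_type, Finset.sum_eq_single j]
    · refine Finset.sum_congr rfl fun i _ => ?_
      rw [← σ.symm.sum_comp, Fintype.sum_prod_type, Finset.sum_eq_single j]
      · simp [b]
      · intro j' _ hj'
        simp [b, hj']
      · simp
    · intro j' _ hj'
      simp [b, hj']
    · simp
  let ψ : CStarMatrix (Fin n) (Fin n) ℂ →CP A := cpOfGram ψ₀ (by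
    intro k x
    refine sum_gram_nonneg (σ := (J × R) × Fin n)
      (fun l p => ∑ c, x p l.2 c • star (b l.1 c)) _ ?_
    intro p q
    change ψ₀ _ = _
    rw [hψ₀, Fintype.sum_prod_type (α₁ := J × R)]
    refine Finset.sum_congr rfl fun jr _ => ?_
    simp only [CStarMatrix.mul_apply, CStarMatrix.star_apply, Finset.sum_smul, star_sum, star_smul,
      star_star, Finset.sum_mul, Finset.mul_sum, smul_mul_smul_comm]
    rw [Finset.sum_comm]
    conv_rhs => rw [Finset.sum_comm]
    refine Finset.sum_congr rfl fun c' _ => ?_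
    rw [Finset.sum_comm])
  have hφ : ∀ x, φ x = φ₀ x := fun x => cpOfGram_apply _ _ x
  have hψ : ∀ x, ψ x = ψ₀ x := fun x => cpOfGram_apply _ _ x
  refine ⟨n, φ, ψ, cp_norm_le φ ?_, cp_norm_le ψ ?_, ?_⟩
  · have : φ 1 = 1 := by
      ext c c'
      rw [hφ, hφ₀, map_one, one_apply_eq_self, orthonormal_iff_ite.1 he, CStarMatrix.one_apply]
      by_cases h : c = c'
      · simp [h]
      · rw [if_neg h]
        by_cases h1 : (σ c).1 = (σ c').1
        · rw [if_pos h1, if_neg]
          intro h2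
          exact h (σ.injective (Prod.ext h1 h2))
        · rw [if_neg h1]
    rw [this]
    rcases subsingleton_or_nontrivial (CStarMatrix (Fin n) (Fin n) ℂ) with h | h
    · rw [Subsingleton.elim (1 : CStarMatrix (Fin n) (Fin n) ℂ) 0]
      simp
    · exact norm_one.le
  · rw [hψ, hψ₁]
    convert ha using 5 with j _ r _ i _
    rw [Finset.sum_eq_single i]
    · simp
    · intro i' _ hi'
      rw [CStarMatrix.one_apply, if_neg, zero_smul]
      intro h
      exact hi' (congrArg Prod.snd (σ.symm.injective h)).symm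
    · simp
  · intro x
    rw [hψ, hψ₁]
    simp [hφ, hφ₀]

end Pool.Agent.P.MP_b9f29c_an
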