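import Mathlib
import Pool.Agent.P.MP_b9f29c_an.CP

/-!
The Cuntz-Toeplitz algebra on two generators and an explicit approximation of its identity map
by completely positive contractions that factor through matrix algebras.
-/

open scoped ComplexOrder InnerProductSpace CStarAlgebra
open Finset Filter Topology

namespace Pool.Agent.P.MP_b9f29c_an

/-- Words of length `k` in two letters. -/
def words : ℕ → Finset (List Bool)
  | 0 => {[]}
  | k + 1 => ((univ : Finset Bool) ×ˢ words k).image fun p => p.1 :: p.2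

lemma mem_words {k : ℕ} {w : List Bool} : w ∈ words k ↔ w.length = k := by
  induction k generalizing w with
  | zero => simp [words]
  | succ k ih =>
    cases w with
    | nil => simp [words]
    | cons i w => simp [words, ih]

lemma sum_words_succ {M : Type} [AddCommMonoid M] (k : ℕ) (f : List Bool → M) :
    ∑ w ∈ words (k + 1), f w = ∑ i : Bool, ∑ w ∈ words k, f (i :: w) := by
  rw [words, sum_image, sum_product]
  rintro ⟨i, w⟩ _ ⟨j, v⟩ _ h
  simpa using h

/-- Words of length less than `n`. -/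
def wordsLt (n : ℕ) : Finset (List Bool) := (range n).biUnion words

lemma mem_wordsLt {n : ℕ} {w : List Bool} : w ∈ wordsLt n ↔ w.length < n := by
  simp [wordsLt, mem_words]

lemma sum_wordsLt {M : Type} [AddCommMonoid M] (n : ℕ) (f : List Bool → M) :
    ∑ w ∈ wordsLt n, f w = ∑ k ∈ range n, ∑ w ∈ words k, f w := by
  rw [wordsLt, sum_biUnion]
  intro i _ j _ hij
  rw [Function.onFun, disjoint_left]
  intro w h1 h2
  rw [mem_words] at h1 h2
  exact hij (h1.symm.trans h2)

/-- Two isometries with orthogonal ranges and a vacuum vector. -/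
structure FockData (H : Type) [NormedAddCommGroup H] [InnerProductSpace ℂ H] [CompleteSpace H] where
  S : Bool → H →L[ℂ] H
  vac : H
  rel : ∀ i j, star (S i) * S j = if i = j then 1 else 0
  inner_vac : ⟪vac, vac⟫_ℂ = 1
  star_vac : ∀ i, star (S i) vac = 0

lemma exists_fockData : Nonempty (FockData (lp (fun _ : List Bool => ℂ) 2)) := by
  let b : HilbertBasis (List Bool) ℂ (lp (fun _ : List Bool => ℂ) 2) := default
  have hb : ∀ w, b w = lp.single 2 w 1 := fun w => (b.repr_symm_single w).symm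
  let V : Bool → (lp (fun _ : List Bool => ℂ) 2 →ₗᵢ[ℂ] lp (fun _ : List Bool => ℂ) 2) := fun i =>
    (b.orthonormal.comp (List.cons i) List.cons_injective).orthogonalFamily.linearIsometry
  have hV : ∀ i w, V i (b w) = b (i :: w) := by
    intro i w
    rw [hb w]
    simp only [V]
    rw [OrthogonalFamily.linearIsometry_apply_single]
    simp
  have hext : ∀ f g : lp (fun _ : List Bool => ℂ) 2 →L[ℂ] lp (fun _ : List Bool => ℂ) 2,
      (∀ w, f (b w) = g (b w)) → f = g := by
    intro f g h
    refine ContinuousLinearMap.ext_on (s := Set.range b) ?_ ?_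
    · exact Submodule.dense_iff_topologicalClosure_eq_top.2 b.dense_span
    · rintro _ ⟨w, rfl⟩
      exact h w
  have hvec : ∀ x y : lp (fun _ : List Bool => ℂ) 2, (∀ w, ⟪b w, x⟫_ℂ = ⟪b w, y⟫_ℂ) → x = y := by
    intro x y h
    apply b.repr.injective
    ext w
    rw [b.repr_apply_apply, b.repr_apply_apply, h]
  have hon := orthonormal_iff_ite.1 b.orthonormal
  refine ⟨⟨fun i => (V i).toContinuousLinearMap, b [], ?_, by rw [hon, if_pos rfl], ?_⟩⟩
  · intro i j
    refine hext _ _ fun w => hvec _ _ fun u => ?_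
    rw [mul_apply_eq_comp, ContinuousLinearMap.star_eq_adjoint,
      ContinuousLinearMap.adjoint_inner_right]
    change ⟪V i (b u), V j (b w)⟫_ℂ = _
    rw [hV, hV, hon]
    by_cases hij : i = j <;> simp [hij, hon]
  · intro i
    refine hvec _ _ fun u => ?_
    rw [ContinuousLinearMap.star_eq_adjoint, ContinuousLinearMap.adjoint_inner_right]
    change ⟪V i (b u), _⟫_ℂ = _
    rw [hV, hon]
    simp

namespace FockData

variable {H : Type} [NormedAddCommGroup H] [InnerProductSpace ℂ H] [CompleteSpace H]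
  (F : FockData H)

lemma vac_ne_zero : F.vac ≠ 0 := by
  intro h
  have := F.inner_vac
  rw [h] at this
  simp at this

include F in
lemma nontrivial : Nontrivial H := ⟨F.vac, 0, F.vac_ne_zero⟩

/-- Product of the isometries along a word. -/
noncomputable def W : List Bool → H →L[ℂ] H
  | [] => 1
  | i :: w => F.S i * W w

lemma W_append (α γ : List Bool) : F.W (α ++ γ) = F.W α * F.W γ := by
  induction α with
  | nil => simp [W]
  | cons i α ih => simp [W, ih, mul_assoc]

lemma star_W_mul (α : List Bool) : star (F.W α) * F.W α = 1 := by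
  induction α with
  | nil => simp [W]
  | cons i α ih =>
    rw [W, star_mul, mul_assoc, ← mul_assoc (star (F.S i)), F.rel, if_pos rfl, one_mul,
      ih]

lemma norm_W_le (α : List Bool) : ‖F.W α‖ ≤ 1 := by
  have := F.nontrivial
  have h := CStarRing.norm_star_mul_self (x := F.W α)
  rw [F.star_W_mul, norm_one] at h
  nlinarith [norm_nonneg (F.W α)]

/-- The basis vector of a word. -/
noncomputable def e (w : List Bool) : H := F.W w F.vac

lemma W_e (α γ : List Bool) : F.W α (F.e γ) = F.e (α ++ γ) := by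
  rw [e, e, W_append, mul_apply_eq_comp]

lemma star_W_e (β ν : List Bool) :
    star (F.W β) (F.e ν) = if β <+: ν then F.e (ν.drop β.length) else 0 := by
  induction β generalizing ν with
  | nil => simp [W]
  | cons i β ih =>
    rw [W, star_mul, mul_apply_eq_comp]
    cases ν with
    | nil => simp [e, W, F.star_vac]
    | cons j ν =>
      have : star (F.S i) (F.e (j :: ν)) = if i = j then F.e ν else 0 := by
        rw [e, W, mul_apply_eq_comp, ← mul_apply_eq_comp, F.rel]
        split_ifs <;> simp [e]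
      rw [this]
      by_cases hij : i = j
      · simp [hij, ih]
      · simp [hij]

lemma inner_e (μ ν : List Bool) : ⟪F.e μ, F.e ν⟫_ℂ = if μ = ν then 1 else 0 := by
  have h1 : ⟪F.e μ, F.e ν⟫_ℂ = ⟪F.vac, star (F.W μ) (F.e ν)⟫_ℂ := by
    rw [ContinuousLinearMap.star_eq_adjoint, ContinuousLinearMap.adjoint_inner_right, e]
  rw [h1, star_W_e]
  by_cases h : μ <+: ν
  · obtain ⟨γ, rfl⟩ := h
    rw [if_pos (List.prefix_append _ _), List.drop_left]
    cases γ with
    | nil => rw [e, W, one_apply_eq_self, F.inner_vac, if_pos (List.append_nil μ).symm]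
    | cons j γ =>
      rw [e, W, mul_apply_eq_comp, ← ContinuousLinearMap.adjoint_inner_left,
        ← ContinuousLinearMap.star_eq_adjoint, F.star_vac]
      simp
  · rw [if_neg h, if_neg, inner_zero_right]
    rintro rfl
    exact h List.prefix_rfl

/-- The vacuum projection. -/
noncomputable def P0 : H →L[ℂ] H := 1 - ∑ i, F.S i * star (F.S i)

lemma star_P0 : star F.P0 = F.P0 := by
  simp [P0, add_comm]

lemma P0_mul_P0 : F.P0 * F.P0 = F.P0 := by
  have h : ∀ i j, F.S i * star (F.S i) * (F.S j * star (F.S j)) =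
      if i = j then F.S i * star (F.S i) else 0 := by
    intro i j
    rw [mul_assoc, ← mul_assoc (star (F.S i)), F.rel]
    split_ifs with hij
    · rw [one_mul, hij]
    · simp
  simp only [P0, Fintype.sum_bool, mul_sub, sub_mul, mul_one, one_mul, mul_add, add_mul, h]
  simp

/-- Projection onto words of length at least `k`. -/
noncomputable def Q (k : ℕ) : H →L[ℂ] H := ∑ γ ∈ words k, F.W γ * star (F.W γ)

/-- Projection onto words of length exactly `k`. -/
noncomputable def Pj (k : ℕ) : H →L[ℂ] H := ∑ γ ∈ words k, F.W γ * F.P0 * star (F.W γ)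

lemma Q_zero : F.Q 0 = 1 := by simp [Q, words, W]

lemma Q_succ (k : ℕ) : F.Q (k + 1) = ∑ i, F.S i * F.Q k * star (F.S i) := by
  simp only [Q, sum_words_succ, W, star_mul, mul_sum, sum_mul, mul_assoc]

lemma P_succ (k : ℕ) : F.Pj (k + 1) = ∑ i, F.S i * F.Pj k * star (F.S i) := by
  simp only [Pj, sum_words_succ, W, star_mul, mul_sum, sum_mul, mul_assoc]

lemma P_eq (k : ℕ) : F.Pj k = F.Q k - F.Q (k + 1) := by
  induction k with
  | zero =>
    rw [Q_succ, Q_zero]
    simp [Pj, words, W, P0]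
  | succ k ih =>
    rw [P_succ, ih, Q_succ F (k + 1), Q_succ F k, ← sum_sub_distrib]
    simp only [mul_sub, sub_mul]

lemma Q_nonneg (k : ℕ) : 0 ≤ F.Q k := sum_nonneg fun _ _ => mul_star_self_nonneg _

lemma P_nonneg (k : ℕ) : 0 ≤ F.Pj k := by
  refine sum_nonneg fun γ _ => ?_
  have : F.W γ * F.P0 * star (F.W γ) = (F.W γ * F.P0) * star (F.W γ * F.P0) := by
    rw [star_mul, star_P0, mul_assoc, mul_assoc, ← mul_assoc F.P0 F.P0, P0_mul_P0]
  rw [this]
  exact mul_star_self_nonneg _

lemma sum_P_add_Q (L : ℕ) : ∑ k ∈ range L, F.Pj k + F.Q L = 1 := by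
  induction L with
  | zero => simp [Q_zero]
  | succ L ih => rw [sum_range_succ, ← ih, P_eq F L]; abel

lemma sum_Q (L : ℕ) :
    ∑ k ∈ range L, F.Q k = ∑ k ∈ range L, ((k + 1 : ℕ) : ℝ) • F.Pj k + (L : ℝ) • F.Q L := by
  induction L with
  | zero => simp
  | succ L ih =>
    rw [sum_range_succ, sum_range_succ, ih, P_eq F L]
    push_cast
    module

lemma norm_comb_le (L : ℕ) (r : ℕ → ℝ) (s ε : ℝ) (hr : ∀ k < L, 0 ≤ r k ∧ r k ≤ ε) (hs : 0 ≤ s)
    (hs' : s ≤ ε) : ‖∑ k ∈ range L, r k • F.Pj k + s • F.Q L‖ ≤ ε := by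
  have := F.nontrivial
  have h0 : 0 ≤ ∑ k ∈ range L, r k • F.Pj k + s • F.Q L :=
    add_nonneg (sum_nonneg fun k hk => smul_nonneg (hr k (mem_range.1 hk)).1 (F.P_nonneg k))
      (smul_nonneg hs (F.Q_nonneg L))
  have h1 : ∑ k ∈ range L, r k • F.Pj k + s • F.Q L ≤ ε • (1 : H →L[ℂ] H) := by
    rw [← F.sum_P_add_Q L, smul_add, smul_sum]
    refine add_le_add (sum_le_sum fun k hk => ?_) ?_
    · exact smul_le_smul_of_nonneg_right (hr k (mem_range.1 hk)).2 (F.P_nonneg k)
    · exact smul_le_smul_of_nonneg_right hs' (F.Q_nonneg L)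
  refine (CStarAlgebra.norm_le_norm_of_nonneg_of_le h0 h1).trans ?_
  rw [norm_smul, norm_one, mul_one, Real.norm_of_nonneg (hs.trans hs')]

/-- The weights. -/
noncomputable def d (n k : ℕ) : ℝ := √(1 - (k + 1 : ℕ) / (n : ℝ))

/-- The elements that define the map back from the matrix algebra. -/
noncomputable def b (n : ℕ) : Bool → List Bool → H →L[ℂ] H
  | false, μ => √(1 / (n : ℝ)) • F.W μ
  | true, μ => d n μ.length • (F.W μ * F.P0)

lemma sum_b (n : ℕ) (μ ν : List Bool) : ∑ r, F.b n r μ * star (F.b n r ν) =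
    (1 / (n : ℝ)) • (F.W μ * star (F.W ν)) +
      (d n μ.length * d n ν.length) • (F.W μ * F.P0 * star (F.W ν)) := by
  rw [Fintype.sum_bool, add_comm]
  simp only [b, star_smul, star_trivial, smul_mul_smul_comm, star_mul, star_P0]
  rw [Real.mul_self_sqrt (by positivity), mul_assoc, ← mul_assoc F.P0 F.P0, P0_mul_P0,
    mul_assoc (F.W μ)]

/-- The approximating maps. -/
noncomputable def θ (n : ℕ) (x : H →L[ℂ] H) : H →L[ℂ] H :=
  ∑ r, ∑ μ : wordsLt n, ∑ ν : wordsLt n,
    ⟪F.e μ, x (F.e ν)⟫_ℂ • (F.b n r μ * star (F.b n r ν))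

lemma θ_eq (n : ℕ) (x : H →L[ℂ] H) : F.θ n x = ∑ ν ∈ wordsLt n, ∑ μ ∈ wordsLt n,
    ⟪F.e μ, x (F.e ν)⟫_ℂ • ∑ r, F.b n r μ * star (F.b n r ν) := by
  rw [θ, sum_comm, sum_comm (s := wordsLt n), ← sum_coe_sort (wordsLt n)]
  refine sum_congr rfl fun μ _ => ?_
  rw [sum_comm, ← sum_coe_sort (wordsLt n)]
  refine sum_congr rfl fun ν _ => ?_
  rw [smul_sum]

lemma θ_gen (n : ℕ) (α β : List Bool) : F.θ n (F.W α * star (F.W β)) =
    ∑ γ ∈ wordsLt (n - max α.length β.length),
      ∑ r, F.b n r (α ++ γ) * star (F.b n r (β ++ γ)) := by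
  classical
  rw [θ_eq]
  have h1 : ∀ ν ∈ wordsLt n, (∑ μ ∈ wordsLt n, ⟪F.e μ, (F.W α * star (F.W β)) (F.e ν)⟫_ℂ •
      ∑ r, F.b n r μ * star (F.b n r ν)) =
      if β <+: ν ∧ α ++ ν.drop β.length ∈ wordsLt n then
        ∑ r, F.b n r (α ++ ν.drop β.length) * star (F.b n r ν) else 0 := by
    intro ν _
    rw [mul_apply_eq_comp, star_W_e]
    by_cases h : β <+: ν
    · simp only [h, if_true, W_e, inner_e, true_and, ite_smul, one_smul, zero_smul]
      rw [sum_ite_eq']
    · simp [h]
  rw [sum_congr rfl h1, ← sum_filter]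
  symm
  refine sum_nbij' (fun γ => β ++ γ) (fun ν => ν.drop β.length) ?_ ?_ ?_ ?_ ?_
  · intro γ hγ
    simp only [mem_filter, mem_wordsLt, List.length_append, List.prefix_append, List.drop_left,
      true_and] at hγ ⊢
    omega
  · rintro ν hν
    simp only [mem_filter, mem_wordsLt] at hν ⊢
    obtain ⟨h2, ⟨γ, rfl⟩, h3⟩ := hν
    simp only [List.length_append, List.drop_left] at h2 h3 ⊢
    omega
  · intro γ _
    simp
  · intro ν hν
    simp only [mem_filter] at hν
    obtain ⟨-, ⟨γ, rfl⟩, -⟩ := hν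
    simp
  · intro γ _
    simp

lemma θ_gen' (n : ℕ) (α β : List Bool) : F.θ n (F.W α * star (F.W β)) =
    F.W α * (∑ k ∈ range (n - max α.length β.length), ((1 / (n : ℝ)) • F.Q k +
      (d n (α.length + k) * d n (β.length + k)) • F.Pj k)) * star (F.W β) := by
  rw [θ_gen, sum_wordsLt, mul_sum, sum_mul]
  refine sum_congr rfl fun k _ => ?_
  rw [Q, Pj, smul_sum, smul_sum, ← sum_add_distrib, mul_sum, sum_mul]
  refine sum_congr rfl fun γ hγ => ?_
  rw [sum_b, List.length_append, List.length_append, mem_words.1 hγ]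
  simp only [W_append, star_mul, mul_add, add_mul, mul_smul_comm, smul_mul_assoc, mul_assoc]

lemma d_mul_d {n a c k : ℕ} (hk : k < n - max a c) :
    1 - (max a c + k + 1 : ℕ) / (n : ℝ) ≤ d n (a + k) * d n (c + k) ∧
      d n (a + k) * d n (c + k) ≤ 1 - (k + 1 : ℕ) / (n : ℝ) := by
  have hn : (0 : ℝ) < n := by
    have : 0 < n := by omega
    exact_mod_cast this
  have hmono : ∀ i j : ℕ, i ≤ j → d n j ≤ d n i := by
    intro i j hij
    unfold d
    gcongr
  have hsq : ∀ i : ℕ, i + 1 ≤ n → d n i * d n i = 1 - (i + 1 : ℕ) / (n : ℝ) := by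
    intro i hi
    refine Real.mul_self_sqrt ?_
    rw [sub_nonneg, div_le_one hn]
    exact_mod_cast hi
  have h0 : ∀ i, 0 ≤ d n i := fun i => Real.sqrt_nonneg _
  constructor
  · rw [← hsq _ (by omega)]
    exact mul_le_mul (hmono _ _ (by omega)) (hmono _ _ (by omega)) (h0 _) (h0 _)
  · rw [← hsq _ (by omega)]
    exact mul_le_mul (hmono _ _ (by omega)) (hmono _ _ (by omega)) (h0 _) (h0 _)

lemma norm_θ_gen {n : ℕ} (α β : List Bool) (hn : 0 < n) (h : max α.length β.length ≤ n) :
    ‖F.θ n (F.W α * star (F.W β)) - F.W α * star (F.W β)‖ ≤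
      (max α.length β.length : ℕ) / (n : ℝ) := by
  set m := max α.length β.length with hm
  have hn' : (0 : ℝ) < n := by exact_mod_cast hn
  set Δ := ∑ k ∈ range (n - m), ((1 / (n : ℝ)) • F.Q k +
      (d n (α.length + k) * d n (β.length + k)) • F.Pj k) with hΔ
  have h1 : 1 - Δ = ∑ k ∈ range (n - m),
      (1 - (k + 1 : ℕ) / (n : ℝ) - d n (α.length + k) * d n (β.length + k)) • F.Pj k +
        ((m : ℝ) / n) • F.Q (n - m) := by
    rw [hΔ, sum_add_distrib, ← smul_sum, sum_Q, ← F.sum_P_add_Q (n - m), smul_add, smul_sum]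
    simp only [sub_smul, one_smul, sum_sub_distrib, smul_smul]
    have e1 : (1 / (n : ℝ) * ((n - m : ℕ) : ℝ)) = 1 - (m : ℝ) / n := by
      rw [Nat.cast_sub h]
      field_simp
    have e2 : ∀ k : ℕ, (1 / (n : ℝ) * ((k + 1 : ℕ) : ℝ)) = ((k + 1 : ℕ) : ℝ) / n := by
      intro k
      field_simp
    simp only [e1, e2, sub_smul, one_smul]
    abel
  have h2 : ‖1 - Δ‖ ≤ (m : ℝ) / n := by
    rw [h1]
    refine F.norm_comb_le _ _ _ _ ?_ (by positivity) le_rfl
    intro k hk
    obtain ⟨h3, h4⟩ := d_mul_d (n := n) (a := α.length) (c := β.length) hk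
    refine ⟨by linarith, ?_⟩
    rw [← hm] at h3
    push_cast at h3 ⊢
    have : ((m : ℝ) + k + 1) / n = (m : ℝ) / n + (k + 1) / n := by ring
    linarith
  rw [θ_gen', ← hm, ← hΔ, ← norm_neg]
  have : -(F.W α * Δ * star (F.W β) - F.W α * star (F.W β)) = F.W α * (1 - Δ) * star (F.W β) := by
    noncomm_ring
  rw [this]
  calc _ ≤ ‖F.W α‖ * ‖1 - Δ‖ * ‖star (F.W β)‖ :=
        (norm_mul_le _ _).trans (by gcongr; exact norm_mul_le _ _)
    _ ≤ 1 * ((m : ℝ) / n) * 1 := by
        rw [norm_star]
        gcongr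
        · exact F.norm_W_le α
        · exact F.norm_W_le β
    _ = _ := by ring

lemma orthonormal_e (n : ℕ) : Orthonormal ℂ fun μ : wordsLt n => F.e μ := by
  classical
  rw [orthonormal_iff_ite]
  intro μ ν
  rw [inner_e]
  simp only [Subtype.ext_iff]

lemma sum_b_eq_one {n : ℕ} (hn : 0 < n) :
    ∑ r, ∑ μ : wordsLt n, F.b n r μ * star (F.b n r μ) = 1 := by
  classical
  have h1 := F.norm_θ_gen [] [] hn (by simp)
  simp only [W, star_one, mul_one, List.length_nil, max_self, Nat.cast_zero, zero_div,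
    norm_le_zero_iff, sub_eq_zero] at h1
  rw [← h1, θ]
  refine sum_congr rfl fun r _ => sum_congr rfl fun μ _ => ?_
  rw [sum_eq_single μ]
  · rw [one_apply_eq_self, inner_e, if_pos rfl, one_smul]
  · intro ν _ hν
    rw [one_apply_eq_self, inner_e, if_neg, zero_smul]
    exact fun h => hν (Subtype.ext h).symm
  · simp

lemma norm_θ_le {n : ℕ} (hn : 0 < n) (x : H →L[ℂ] H) : ‖F.θ n x‖ ≤ ‖x‖ := by
  have := F.nontrivial
  obtain ⟨N, φ, ψ, h1, h2, h3⟩ := exists_cp_factor (A := H →L[ℂ] H) (J := Unit)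
    (fun _ => StarAlgHom.id ℂ _) _ (F.orthonormal_e n) (fun _ r μ => F.b n r μ)
    (by rw [Fintype.sum_unique, F.sum_b_eq_one hn, norm_one])
  have h4 : F.θ n x = ψ (φ x) := by
    rw [h3, θ]
    simp
  rw [h4]
  exact (h2 _).trans (h1 _)

lemma θ_add (n : ℕ) (x y : H →L[ℂ] H) : F.θ n (x + y) = F.θ n x + F.θ n y := by
  simp [θ, inner_add_right, add_smul, sum_add_distrib]

lemma θ_smul (n : ℕ) (c : ℂ) (x : H →L[ℂ] H) : F.θ n (c • x) = c • F.θ n x := by
  simp [θ, inner_smul_right, smul_sum, smul_smul]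

lemma θ_sub (n : ℕ) (x y : H →L[ℂ] H) : F.θ n (x - y) = F.θ n x - F.θ n y := by
  simp [θ, inner_sub_right, sub_smul, sum_sub_distrib]

/-- The monomials. -/
def gens : Set (H →L[ℂ] H) := Set.range fun p : List Bool × List Bool => F.W p.1 * star (F.W p.2)

/-- The Cuntz-Toeplitz algebra. -/
noncomputable def alg : StarSubalgebra ℂ (H →L[ℂ] H) :=
  (StarAlgebra.adjoin ℂ (Set.range F.S)).topologicalClosure

lemma isClosed_alg : IsClosed (F.alg : Set (H →L[ℂ] H)) :=
  StarSubalgebra.isClosed_topologicalClosure _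

lemma S_mem (i : Bool) : F.S i ∈ F.alg :=
  StarSubalgebra.le_topologicalClosure _ (StarAlgebra.subset_adjoin ℂ _ ⟨i, rfl⟩)

lemma W_mem (α : List Bool) : F.W α ∈ F.alg := by
  induction α with
  | nil => exact one_mem _
  | cons i α ih => exact mul_mem (F.S_mem i) ih

lemma b_mem (n : ℕ) (r : Bool) (μ : List Bool) : F.b n r μ ∈ F.alg := by
  have hs : ∀ (c : ℝ) (x : H →L[ℂ] H), x ∈ F.alg → c • x ∈ F.alg := fun c x hx => by
    rw [← Complex.coe_smul]
    exact F.alg.smul_mem hx _
  cases r
  · exact hs _ _ (F.W_mem μ)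
  · exact hs _ _ (mul_mem (F.W_mem μ) (sub_mem (one_mem _)
      (sum_mem fun i _ => mul_mem (F.S_mem i) (star_mem (F.S_mem i)))))

lemma alg_subset : (F.alg : Set (H →L[ℂ] H)) ⊆ closure (Submodule.span ℂ F.gens) := by
  refine closure_mono ?_
  intro x hx
  have hx' : x ∈ Algebra.adjoin ℂ (Set.range F.S ∪ star (Set.range F.S)) := by
    rw [← StarAlgebra.adjoin_toSubalgebra]
    exact hx
  have hgen : ∀ α β, F.W α * star (F.W β) ∈ Submodule.span ℂ F.gens := fun α β =>
    Submodule.subset_span ⟨(α, β), rfl⟩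
  have key : ∀ y ∈ Submodule.span ℂ F.gens, x * y ∈ Submodule.span ℂ F.gens := by
    clear hx
    induction hx' using Algebra.adjoin_induction with
    | mem z hz =>
      intro y hy
      induction hy using Submodule.span_induction with
      | mem y hy =>
        obtain ⟨⟨α, β⟩, rfl⟩ := hy
        rcases hz with ⟨i, rfl⟩ | hz
        · rw [← mul_assoc]
          exact hgen (i :: α) β
        · obtain ⟨i, hi⟩ := Set.mem_star.1 hz
          obtain rfl : z = star (F.S i) := by rw [hi, star_star]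
          cases α with
          | nil =>
            have := hgen [] (β ++ [i])
            simpa [W, W_append] using this
          | cons j α =>
            simp only [W]
            rw [← mul_assoc, ← mul_assoc, F.rel]
            split_ifs
            · rw [one_mul]
              exact hgen α β
            · simp
      | zero => simp
      | add y z _ _ hy hz => rw [mul_add]; exact add_mem hy hz
      | smul c y _ hy => rw [mul_smul_comm]; exact Submodule.smul_mem _ _ hy
    | algebraMap c =>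
      intro y hy
      rw [← Algebra.smul_def]
      exact Submodule.smul_mem _ _ hy
    | add u v _ _ hu hv =>
      intro y hy
      rw [add_mul]
      exact add_mem (hu y hy) (hv y hy)
    | mul u v _ _ hu hv =>
      intro y hy
      rw [mul_assoc]
      exact hu _ (hv y hy)
  simpa [W] using key _ (hgen [] [])

lemma tendsto_θ {x : H →L[ℂ] H} (hx : x ∈ F.alg) : Tendsto (fun n => F.θ n x) atTop (𝓝 x) := by
  have h1 : ∀ y ∈ Submodule.span ℂ F.gens, Tendsto (fun n => F.θ n y) atTop (𝓝 y) := by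
    intro y hy
    induction hy using Submodule.span_induction with
    | mem y hy =>
      obtain ⟨⟨α, β⟩, rfl⟩ := hy
      rw [tendsto_iff_norm_sub_tendsto_zero]
      refine squeeze_zero' (Eventually.of_forall fun _ => norm_nonneg _) ?_
        (tendsto_const_div_atTop_nhds_zero_nat ((max α.length β.length : ℕ) : ℝ))
      filter_upwards [eventually_gt_atTop 0, eventually_ge_atTop (max α.length β.length)]
        with n hn hn'
      exact F.norm_θ_gen α β hn hn'
    | zero =>
      have : ∀ n, F.θ n 0 = 0 := fun n => by simp [θ]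
      simp [this]
    | add y z _ _ hy hz =>
      simp only [θ_add]
      exact hy.add hz
    | smul c y _ hy =>
      simp only [θ_smul]
      exact hy.const_smul c
  rw [Metric.tendsto_atTop]
  intro ε hε
  obtain ⟨y, hy, hxy⟩ := Metric.mem_closure_iff.1 (F.alg_subset hx) (ε / 3) (by positivity)
  obtain ⟨N, hN⟩ := Metric.tendsto_atTop.1 (h1 y hy) (ε / 3) (by positivity)
  refine ⟨max N 1, fun n hn => ?_⟩
  have h2 := hN n (le_of_max_le_left hn)
  have h3 := F.norm_θ_le (n := n) (le_of_max_le_right hn) (x - y)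
  rw [θ_sub, ← dist_eq_norm, ← dist_eq_norm] at h3
  have h4 := dist_triangle4 (F.θ n x) (F.θ n y) y x
  rw [dist_comm y x] at h4
  linarith

lemma isSeparable_alg : TopologicalSpace.IsSeparable (F.alg : Set (H →L[ℂ] H)) :=
  (((Set.countable_range _).isSeparable (s := F.gens)).span.closure).mono F.alg_subset

end FockData

end Pool.Agent.P.MP_b9f29c_an
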