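import Mathlib

/-!
A unital C*-algebra containing two almost isometries with almost orthogonal ranges has an
irreducible representation whose image misses a compact operator.
-/

open scoped ComplexOrder InnerProductSpace
open Set

namespace Pool.Agent.P.MP_b9f29c_an

variable {D : Type} [CStarAlgebra D]

lemma exists_maximal_ideal [Nontrivial D] :
    ∃ I : Submodule ℂ D, (1 : D) ∉ I ∧ (∀ x ∈ I, ∀ a, a * x ∈ I ∧ x * a ∈ I) ∧
      ∀ J : Submodule ℂ D, (1 : D) ∉ J → (∀ x ∈ J, ∀ a, a * x ∈ J ∧ x * a ∈ J) → I ≤ J →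
        J ≤ I := by
  let P : Set (Submodule ℂ D) := {I | (1 : D) ∉ I ∧ ∀ x ∈ I, ∀ a, a * x ∈ I ∧ x * a ∈ I}
  have hbot : (⊥ : Submodule ℂ D) ∈ P := by
    refine ⟨by simp, ?_⟩
    intro x hx a
    rw [Submodule.mem_bot] at hx
    simp [hx]
  obtain ⟨I, -, hI⟩ := zorn_le_nonempty₀ P (by
    intro c hcP hc y hy
    refine ⟨sSup c, ⟨?_, ?_⟩, fun z hz => le_sSup hz⟩
    · intro h1
      obtain ⟨J, hJ, h1J⟩ := (Submodule.mem_sSup_of_directed ⟨y, hy⟩ hc.directedOn).1 h1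
      exact (hcP hJ).1 h1J
    · intro x hx a
      obtain ⟨J, hJ, hxJ⟩ := (Submodule.mem_sSup_of_directed ⟨y, hy⟩ hc.directedOn).1 hx
      exact ⟨le_sSup hJ ((hcP hJ).2 x hxJ a).1, le_sSup hJ ((hcP hJ).2 x hxJ a).2⟩) ⊥ hbot
  exact ⟨I, hI.1.1, hI.1.2, fun J h1 h2 h3 => hI.2 ⟨h1, h2⟩ h3⟩

lemma exists_functional [Nontrivial D] (I : Submodule ℂ D) (h1 : (1 : D) ∉ I)
    (hI : ∀ x ∈ I, ∀ a, a * x ∈ I ∧ x * a ∈ I) :
    ∃ f : StrongDual ℂ D, ‖f‖ ≤ 1 ∧ f 1 = 1 ∧ ∀ x ∈ I, f x = 0 := by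
  have hn : ‖(Submodule.Quotient.mk 1 : D ⧸ I)‖ = 1 := by
    apply le_antisymm
    · simpa using Submodule.Quotient.norm_mk_le I (1 : D)
    · by_contra hlt
      push Not at hlt
      obtain ⟨m, hm, hm'⟩ := Submodule.Quotient.norm_mk_lt
        (Submodule.Quotient.mk 1 : D ⧸ I) (sub_pos.2 hlt)
      have hm1 : ‖m‖ < 1 := by linarith
      have hmem : 1 - m ∈ I := (Submodule.Quotient.eq I).1 hm.symm
      let u := Units.oneSub m hm1
      have : (u⁻¹ : Dˣ).1 * (1 - m) = 1 := u.inv_mul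
      exact h1 (this ▸ (hI _ hmem _).1)
  obtain ⟨g, hg, hg1⟩ := exists_dual_vector'' ℂ (Submodule.Quotient.mk 1 : D ⧸ I)
  let q : D →L[ℂ] D ⧸ I := I.mkQ.mkContinuous 1 fun x => by
    simpa using Submodule.Quotient.norm_mk_le I x
  refine ⟨g.comp q, ?_, ?_, ?_⟩
  · refine ContinuousLinearMap.opNorm_le_bound _ zero_le_one fun x => ?_
    calc ‖g (q x)‖ ≤ ‖g‖ * ‖q x‖ := g.le_opNorm _
      _ ≤ 1 * ‖x‖ := by
        gcongr
        exact Submodule.Quotient.norm_mk_le I x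
  · change g (Submodule.Quotient.mk 1) = 1
    rw [hg1, hn]
    simp
  · intro x hx
    change g (Submodule.Quotient.mk x) = 0
    rw [(Submodule.Quotient.mk_eq_zero I).2 hx, map_zero]

lemma im_eq_zero_of_norm_le [Nontrivial D] (f : StrongDual ℂ D) (hf : ‖f‖ ≤ 1) (h1 : f 1 = 1) {a : D}
    (ha : IsSelfAdjoint a) : (f a).im = 0 := by
  have key : ∀ t : ℝ, 2 * t * (f a).im ≤ ‖a‖ ^ 2 := by
    intro t
    have e1 : star (a + (t * Complex.I : ℂ) • (1 : D)) * (a + (t * Complex.I : ℂ) • (1 : D))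
        = a * a + ((t ^ 2 : ℝ) : ℂ) • (1 : D) := by
      simp only [star_add, ha.star_eq, star_smul, star_one, add_mul, mul_add, smul_mul_assoc,
        mul_smul_comm, one_mul, mul_one, smul_add, smul_smul, Complex.star_def, map_mul, Complex.conj_ofReal,
        Complex.conj_I]
      have : (t * Complex.I * (t * -Complex.I) : ℂ) = ((t ^ 2 : ℝ) : ℂ) := by
        push_cast
        linear_combination (-(t : ℂ) ^ 2) * Complex.I_mul_I
      rw [this, mul_neg, neg_smul]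
      abel
    have e2 : ‖a + (t * Complex.I : ℂ) • (1 : D)‖ ^ 2 ≤ ‖a‖ ^ 2 + t ^ 2 := by
      rw [sq, ← CStarRing.norm_star_mul_self, e1]
      refine (norm_add_le _ _).trans (add_le_add ?_ ?_)
      · rw [sq]
        exact norm_mul_le _ _
      · rw [norm_smul, Complex.norm_real, Real.norm_of_nonneg (sq_nonneg t)]
        exact mul_le_of_le_one_right (sq_nonneg t) norm_one.le
    have e3 : ‖f a + t * Complex.I‖ ≤ ‖a + (t * Complex.I : ℂ) • (1 : D)‖ := by
      have := f.le_of_opNorm_le hf (a + (t * Complex.I : ℂ) • (1 : D))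
      simpa [h1] using this
    have e4 : ((f a).im + t) ^ 2 ≤ ‖f a + t * Complex.I‖ ^ 2 := by
      have := Complex.abs_im_le_norm (f a + t * Complex.I)
      simp only [Complex.add_im, Complex.mul_im, Complex.ofReal_re, Complex.I_im, mul_one,
        Complex.ofReal_im, Complex.I_re, mul_zero, add_zero] at this
      exact sq_le_sq' (by linarith [neg_abs_le ((f a).im + t)]) ((le_abs_self _).trans this)
    have e5 : ‖f a + t * Complex.I‖ ^ 2 ≤ ‖a + (t * Complex.I : ℂ) • (1 : D)‖ ^ 2 := by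
      gcongr
    nlinarith [sq_nonneg (f a).im]
  by_contra hne
  have := key ((‖a‖ ^ 2 + 1) / (2 * (f a).im))
  rw [show 2 * ((‖a‖ ^ 2 + 1) / (2 * (f a).im)) * (f a).im = ‖a‖ ^ 2 + 1 by field_simp] at this
  linarith

lemma nonneg_of_norm_le [Nontrivial D] [PartialOrder D] [StarOrderedRing D] (f : StrongDual ℂ D) (hf : ‖f‖ ≤ 1)
    (h1 : f 1 = 1) {a : D} (ha : 0 ≤ a) : 0 ≤ f a := by
  have him := im_eq_zero_of_norm_le f hf h1 (IsSelfAdjoint.of_nonneg ha)
  have hn : ‖algebraMap ℝ D ‖a‖ - a‖ ≤ ‖a‖ := by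
    have h2 : 0 ≤ algebraMap ℝ D ‖a‖ - a :=
      sub_nonneg.2 (IsSelfAdjoint.le_algebraMap_norm_self (IsSelfAdjoint.of_nonneg ha))
    refine (CStarAlgebra.norm_le_norm_of_nonneg_of_le h2 (sub_le_self _ ha)).trans ?_
    rw [Algebra.algebraMap_eq_smul_one, norm_smul, norm_norm]
    exact mul_le_of_le_one_right (norm_nonneg a) norm_one.le
  have h3 : ‖(‖a‖ : ℂ) - f a‖ ≤ ‖a‖ := by
    have := (f.le_of_opNorm_le hf (algebraMap ℝ D ‖a‖ - a)).trans (by simpa using hn)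
    rwa [map_sub, Algebra.algebraMap_eq_smul_one, ← Complex.coe_smul, map_smul, h1,
      smul_eq_mul, mul_one] at this
  have h4 := (Complex.re_le_norm _).trans h3
  simp only [Complex.sub_re, Complex.ofReal_re] at h4
  exact Complex.nonneg_iff.2 ⟨by linarith, him.symm⟩

/-- The weak-star compact convex set of states vanishing on `I` has an extreme point. -/
lemma exists_extreme [Nontrivial D] (I : Submodule ℂ D) (h1 : (1 : D) ∉ I)
    (hI : ∀ x ∈ I, ∀ a, a * x ∈ I ∧ x * a ∈ I) :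
    ∃ f : StrongDual ℂ D, ‖f‖ ≤ 1 ∧ f 1 = 1 ∧ (∀ x ∈ I, f x = 0) ∧
      ∀ g₁ g₂ : StrongDual ℂ D, ‖g₁‖ ≤ 1 → g₁ 1 = 1 → (∀ x ∈ I, g₁ x = 0) →
        ‖g₂‖ ≤ 1 → g₂ 1 = 1 → (∀ x ∈ I, g₂ x = 0) → ∀ r₁ r₂ : ℝ, 0 < r₁ → 0 < r₂ → r₁ + r₂ = 1 →
        (∀ a, f a = r₁ * g₁ a + r₂ * g₂ a) → ∀ a, g₁ a = f a := by
  let S : Set (WeakDual ℂ D) := (WeakDual.toStrongDual ⁻¹' Metric.closedBall 0 1) ∩
    ({f | f 1 = 1} ∩ ⋂ x ∈ I, {f | f x = 0})
  have hS : IsCompact S := by
    refine (WeakDual.isCompact_closedBall (0 : StrongDual ℂ D) 1).inter_right ?_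
    refine IsClosed.inter (isClosed_eq (WeakDual.eval_continuous _) continuous_const) ?_
    exact isClosed_biInter fun x _ => isClosed_eq (WeakDual.eval_continuous _) continuous_const
  have hmem : ∀ g : StrongDual ℂ D, ‖g‖ ≤ 1 → g 1 = 1 → (∀ x ∈ I, g x = 0) →
      StrongDual.toWeakDual g ∈ S := by
    intro g h1 h2 h3
    exact ⟨by simpa using h1, h2, mem_iInter₂.2 h3⟩
  obtain ⟨f₀, h01, h02, h03⟩ := exists_functional I h1 hI
  have : LocallyConvexSpace ℝ (WeakDual ℂ D) :=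
    inferInstanceAs (LocallyConvexSpace ℝ (WeakBilin (topDualPairing ℂ D)))
  obtain ⟨f, hf⟩ := hS.extremePoints_nonempty ⟨_, hmem f₀ h01 h02 h03⟩
  refine ⟨WeakDual.toStrongDual f, by simpa using hf.1.1, hf.1.2.1,
    fun x hx => (mem_iInter₂.1 hf.1.2.2 x hx :), ?_⟩
  intro g₁ g₂ a1 a2 a3 b1 b2 b3 r₁ r₂ hr₁ hr₂ hr hsum a
  have := hf.2 (hmem g₁ a1 a2 a3) (hmem g₂ b1 b2 b3) ⟨r₁, r₂, hr₁, hr₂, hr, by
    apply DFunLike.ext
    intro a
    exact (hsum a).symm⟩
  exact congrArg (fun φ : WeakDual ℂ D => φ a) this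

theorem exists_irrep [Nontrivial D] (s t : D) (hs : ‖star s * s - 1‖ ≤ 1 / 3)
    (ht : ‖star t * t - 1‖ ≤ 1 / 3) (hst : ‖star s * t‖ ≤ 1 / 3) :
    ∃ (H : Type) (_ : NormedAddCommGroup H) (_ : InnerProductSpace ℂ H) (_ : CompleteSpace H)
      (π : D →⋆ₐ[ℂ] (H →L[ℂ] H)), Nontrivial H ∧
      (∀ K : Submodule ℂ H, IsClosed (K : Set H) → (∀ a, ∀ x ∈ K, π a x ∈ K) → K = ⊥ ∨ K = ⊤) ∧
      ∃ T : H →L[ℂ] H, IsCompactOperator T ∧ ∀ a, π a ≠ T := by
  letI : PartialOrder D := CStarAlgebra.spectralOrder D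
  haveI : StarOrderedRing D := CStarAlgebra.spectralOrderedRing D
  obtain ⟨I, hI1, hI2, hImax⟩ := exists_maximal_ideal (D := D)
  obtain ⟨f, hf1, hf2, hf3, hfext⟩ := exists_extreme I hI1 hI2
  let φ : D →ₚ[ℂ] ℂ := PositiveLinearMap.mk₀ (f : D →ₗ[ℂ] ℂ) fun a ha =>
    nonneg_of_norm_le f hf1 hf2 ha
  have hφ : ∀ a, φ a = f a := fun a => rfl
  let π := φ.gnsStarAlgHom
  let ι : D → φ.GNS := fun a => (φ.toPreGNS a : φ.PreGNS)
  have hπι : ∀ a b, π a (ι b) = ι (a * b) := by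
    intro a b
    simp [π, ι, PositiveLinearMap.gnsStarAlgHom_apply]
  have hinner : ∀ a b, ⟪ι a, ι b⟫_ℂ = f (star a * b) := by
    intro a b
    simp only [ι, UniformSpace.Completion.inner_coe, PositiveLinearMap.preGNS_inner_def]
    rfl
  have hdense : DenseRange ι := by
    have h1 : DenseRange (fun x : φ.PreGNS => (x : φ.GNS)) := UniformSpace.Completion.denseRange_coe
    exact h1
  set ξ := ι 1 with hξ
  have hξ1 : ⟪ξ, ξ⟫_ℂ = 1 := by rw [hinner]; simpa using hf2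
  have hξ0 : ξ ≠ 0 := by
    intro h
    rw [h] at hξ1
    simp at hξ1
  have hπξ : ∀ a, π a ξ = ι a := fun a => by rw [hξ, hπι, mul_one]
  have hπI : ∀ x ∈ I, π x = 0 := by
    intro x hx
    have h1 : ∀ b, π x (ι b) = 0 := by
      intro b
      rw [← inner_self_eq_zero (𝕜 := ℂ), hπι, hinner]
      exact hf3 _ (hI2 _ (hI2 _ hx b).2 _).1
    ext v
    exact hdense.induction_on (p := fun v => π x v = 0) v
      (isClosed_eq (π x).continuous continuous_const) h1
  have hadj : ∀ a (x y : φ.GNS), ⟪x, π a y⟫_ℂ = ⟪π (star a) x, y⟫_ℂ := by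
    intro a x y
    rw [map_star, ContinuousLinearMap.star_eq_adjoint, ContinuousLinearMap.adjoint_inner_left]
  have hπnorm : ∀ a, ‖π a‖ ≤ ‖a‖ := fun a => NonUnitalStarAlgHom.norm_apply_le π a
  refine ⟨φ.GNS, inferInstance, inferInstance, inferInstance, π, ⟨ξ, 0, hξ0⟩, ?_, ?_⟩
  · intro K hK hinv
    haveI : CompleteSpace K := hK.completeSpace_coe
    have hinv' : ∀ a, ∀ x ∈ Kᗮ, π a x ∈ Kᗮ := by
      intro a x hx
      rw [Submodule.mem_orthogonal] at hx ⊢
      intro u hu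
      rw [hadj]
      exact hx _ (hinv _ _ hu)
    have htop : ∀ L : Submodule ℂ φ.GNS, IsClosed (L : Set φ.GNS) →
        (∀ a, ∀ x ∈ L, π a x ∈ L) → ξ ∈ L → L = ⊤ := by
      intro L hL hLinv hξL
      rw [Submodule.eq_top_iff']
      intro v
      exact hdense.induction_on (p := fun v => v ∈ L) v hL fun a => hπξ a ▸ hLinv a _ hξL
    obtain ⟨u, hu, v, hv, huv⟩ := K.exists_add_mem_mem_orthogonal ξ
    by_cases hu0 : u = 0
    · left
      rw [← Submodule.orthogonal_eq_top_iff]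
      refine htop _ K.isClosed_orthogonal hinv' ?_
      rw [huv, hu0, zero_add]
      exact hv
    by_cases hv0 : v = 0
    · right
      refine htop _ hK hinv ?_
      rw [huv, hv0, add_zero]
      exact hu
    exfalso
    let g : φ.GNS → StrongDual ℂ D := fun w =>
      LinearMap.mkContinuous
        { toFun := fun a => ((‖w‖ ^ 2 : ℝ) : ℂ)⁻¹ * ⟪w, π a w⟫_ℂ
          map_add' := fun a b => by simp [inner_add_right, mul_add]
          map_smul' := fun c a => by simp [inner_smul_right]; ring } 1 (by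
        intro a
        simp only [LinearMap.coe_mk, AddHom.coe_mk, norm_mul, norm_inv, Complex.norm_real,
          Real.norm_of_nonneg (sq_nonneg ‖w‖), one_mul]
        have h1 : ‖⟪w, π a w⟫_ℂ‖ ≤ ‖w‖ ^ 2 * ‖a‖ := by
          calc ‖⟪w, π a w⟫_ℂ‖ ≤ ‖w‖ * ‖π a w‖ := norm_inner_le_norm _ _
            _ ≤ ‖w‖ * (‖a‖ * ‖w‖) := by
              gcongr
              exact (π a).le_of_opNorm_le (hπnorm a) w
            _ = ‖w‖ ^ 2 * ‖a‖ := by ring
        exact inv_mul_le_of_le_mul₀ (sq_nonneg _) (norm_nonneg _) h1)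
    have hg : ∀ w a, g w a = ((‖w‖ ^ 2 : ℝ) : ℂ)⁻¹ * ⟪w, π a w⟫_ℂ := fun w a => rfl
    have hg1 : ∀ w, ‖g w‖ ≤ 1 := fun w => LinearMap.mkContinuous_norm_le _ zero_le_one _
    have hne : ∀ w : φ.GNS, w ≠ 0 → ((‖w‖ ^ 2 : ℝ) : ℂ) ≠ 0 := fun w hw => by
      simpa using hw
    have hg2 : ∀ w, w ≠ 0 → g w 1 = 1 := by
      intro w hw
      rw [hg, map_one, one_apply_eq_self, inner_self_eq_norm_sq_to_K]
      have := hne w hw
      push_cast at this ⊢
      exact inv_mul_cancel₀ this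
    have hg3 : ∀ w, ∀ x ∈ I, g w x = 0 := by
      intro w x hx
      rw [hg, hπI x hx]
      simp
    have huv0 : ∀ a, ⟪u, π a v⟫_ℂ = 0 := fun a =>
      (Submodule.mem_orthogonal _ _).1 (hinv' a v hv) u hu
    have hvu0 : ∀ a, ⟪v, π a u⟫_ℂ = 0 := fun a =>
      (Submodule.mem_orthogonal' _ _).1 hv _ (hinv a u hu)
    have hfa : ∀ a, f a = ⟪ξ, π a ξ⟫_ℂ := fun a => by
      rw [hπξ, hξ, hinner]
      simp
    have hsplit : ∀ a, f a = ⟪u, π a u⟫_ℂ + ⟪v, π a v⟫_ℂ := by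
      intro a
      rw [hfa, huv, map_add, inner_add_left, inner_add_right, inner_add_right, huv0, hvu0]
      ring
    have hsum : ‖u‖ ^ 2 + ‖v‖ ^ 2 = 1 := by
      have := hsplit 1
      rw [hf2, map_one, one_apply_eq_self, one_apply_eq_self,
        inner_self_eq_norm_sq_to_K, inner_self_eq_norm_sq_to_K] at this
      apply Complex.ofReal_injective
      push_cast
      exact this.symm
    have hgu := hfext (g u) (g v) (hg1 u) (hg2 u hu0) (hg3 u) (hg1 v) (hg2 v hv0) (hg3 v)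
      (‖u‖ ^ 2) (‖v‖ ^ 2) (by positivity) (by positivity) hsum (by
        intro a
        rw [hg, hg, ← mul_assoc, ← mul_assoc, mul_inv_cancel₀ (hne u hu0),
          mul_inv_cancel₀ (hne v hv0), one_mul, one_mul, hsplit])
    have hzero : ∀ a, ⟪u - ((‖u‖ ^ 2 : ℝ) : ℂ) • ξ, ι a⟫_ℂ = 0 := by
      intro a
      have h1 := hgu a
      rw [hg, hfa, inv_mul_eq_iff_eq_mul₀ (hne u hu0)] at h1
      have h2 : ⟪u, π a ξ⟫_ℂ = ⟪u, π a u⟫_ℂ := by
        conv_lhs => rw [huv, map_add, inner_add_right, huv0, add_zero]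
      rw [← hπξ, inner_sub_left, inner_smul_left, Complex.conj_ofReal, h2, h1, sub_self]
    have hueq : u = ((‖u‖ ^ 2 : ℝ) : ℂ) • ξ := by
      rw [← sub_eq_zero, ← inner_self_eq_zero (𝕜 := ℂ)]
      exact hdense.induction_on (p := fun w => ⟪u - ((‖u‖ ^ 2 : ℝ) : ℂ) • ξ, w⟫_ℂ = 0) _
        (isClosed_eq (by fun_prop) continuous_const) hzero
    have hξK : ξ ∈ K := by
      have := K.smul_mem ((‖u‖ ^ 2 : ℝ) : ℂ)⁻¹ hu
      rwa [hueq, smul_smul, ← hueq, inv_mul_cancel₀ (hne u hu0), one_smul] at this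
    have hvK : v ∈ K := by
      have := K.sub_mem hξK hu
      rwa [huv, add_sub_cancel_left] at this
    exact hv0 (inner_self_eq_zero.1 ((Submodule.mem_orthogonal _ _).1 hv v hvK))
  · by_contra hcon
    push Not at hcon
    let J : Submodule ℂ D :=
      { carrier := {a | IsCompactOperator (π a)}
        add_mem' := fun {a b} ha hb => by
          simp only [mem_ofPred_eq, map_add] at ha hb ⊢
          exact ha.add hb
        zero_mem' := by
          simp only [mem_ofPred_eq, map_zero]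
          exact isCompactOperator_zero
        smul_mem' := fun c a ha => by
          simp only [mem_ofPred_eq, map_smul] at ha ⊢
          exact ha.smul c }
    have hJ : ∀ a, a ∈ J ↔ IsCompactOperator (π a) := fun a => Iff.rfl
    by_cases h1J : (1 : D) ∈ J
    · rw [hJ, map_one] at h1J
      haveI : FiniteDimensional ℂ φ.GNS := FiniteDimensional.of_isCompactOperator_id h1J
      let L : (φ.GNS × φ.GNS) →ₗ[ℂ] φ.GNS :=
        LinearMap.coprod (π s).toLinearMap (π t).toLinearMap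
      have hest : ∀ (a b : D) (x y : φ.GNS),
          ‖⟪π a x, π b y⟫_ℂ‖ ≤ ‖star a * b‖ * (‖x‖ * ‖y‖) := by
        intro a b x y
        have : ⟪π a x, π b y⟫_ℂ = ⟪x, π (star a * b) y⟫_ℂ := by
          rw [map_mul, mul_apply_eq_comp, hadj (star a), star_star]
        rw [this]
        calc _ ≤ ‖x‖ * ‖π (star a * b) y‖ := norm_inner_le_norm _ _
          _ ≤ ‖x‖ * (‖star a * b‖ * ‖y‖) := by
            gcongr
            exact (π _).le_of_opNorm_le (hπnorm _) y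
          _ = _ := by ring
      have hlow : ∀ a : D, ‖star a * a - 1‖ ≤ 1 / 3 → ∀ x : φ.GNS,
          2 / 3 * ‖x‖ ^ 2 ≤ ‖π a x‖ ^ 2 := by
        intro a ha x
        have h1 : ⟪x, π (star a * a - 1) x⟫_ℂ = ((‖π a x‖ ^ 2 - ‖x‖ ^ 2 : ℝ) : ℂ) := by
          rw [map_sub, map_one, sub_apply, inner_sub_right, map_mul,
            mul_apply_eq_comp, hadj (star a), star_star, one_apply_eq_self,
            inner_self_eq_norm_sq_to_K, inner_self_eq_norm_sq_to_K]
          push_cast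
          rfl
        have h2 : ‖⟪x, π (star a * a - 1) x⟫_ℂ‖ ≤ 1 / 3 * ‖x‖ ^ 2 := by
          calc _ ≤ ‖x‖ * ‖π (star a * a - 1) x‖ := norm_inner_le_norm _ _
            _ ≤ ‖x‖ * (1 / 3 * ‖x‖) := by
              gcongr
              exact (π _).le_of_opNorm_le ((hπnorm _).trans ha) x
            _ = _ := by ring
        rw [h1, Complex.norm_real, Real.norm_eq_abs, abs_le] at h2
        linarith [h2.1]
      have hL : Function.Injective L := by
        rw [injective_iff_map_eq_zero]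
        rintro ⟨x, y⟩ hxy
        have h0 : π s x + π t y = 0 := hxy
        have h1 := norm_add_sq (𝕜 := ℂ) (π s x) (π t y)
        rw [h0, norm_zero] at h1
        have h2 : |RCLike.re ⟪π s x, π t y⟫_ℂ| ≤ 1 / 3 * (‖x‖ * ‖y‖) :=
          (RCLike.abs_re_le_norm _).trans ((hest s t x y).trans (by gcongr))
        have h3 := hlow s hs x
        have h4 := hlow t ht y
        rw [abs_le] at h2
        have h5 : ‖x‖ ^ 2 + ‖y‖ ^ 2 ≤ 0 := by nlinarith [sq_nonneg (‖x‖ - ‖y‖)]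
        have hx : ‖x‖ = 0 := by nlinarith [sq_nonneg ‖x‖, sq_nonneg ‖y‖]
        have hy : ‖y‖ = 0 := by nlinarith [sq_nonneg ‖x‖, sq_nonneg ‖y‖]
        exact Prod.ext (norm_eq_zero.1 hx) (norm_eq_zero.1 hy)
      have h1 := LinearMap.finrank_le_finrank_of_injective hL
      rw [Module.finrank_prod] at h1
      haveI : Nontrivial φ.GNS := ⟨ξ, 0, hξ0⟩
      have h2 : 0 < Module.finrank ℂ φ.GNS := Module.finrank_pos
      omega
    · have hJI : J ≤ I := by
        refine hImax J h1J ?_ ?_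
        · intro x hx a
          rw [hJ] at hx
          rw [hJ, hJ, map_mul, map_mul]
          exact ⟨hx.clm_comp (π a), hx.comp_clm (π a)⟩
        · intro x hx
          rw [hJ, hπI x hx]
          exact isCompactOperator_zero
      let T : φ.GNS →L[ℂ] φ.GNS := (ContinuousLinearMap.toSpanSingleton ℂ ξ).comp (innerSL ℂ ξ)
      have hT : IsCompactOperator T :=
        (isCompactOperator_id (E := ℂ)).comp_clm (innerSL ℂ ξ) |>.clm_comp
          (ContinuousLinearMap.toSpanSingleton ℂ ξ)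
      obtain ⟨a, ha⟩ := hcon T hT
      have h1 : π a = 0 := hπI a (hJI (by rw [hJ, ha]; exact hT))
      have h2 : T ξ = ξ := by
        change ⟪ξ, ξ⟫_ℂ • ξ = ξ
        rw [hξ1, one_smul]
      rw [← ha, h1] at h2
      exact hξ0 h2.symm

end Pool.Agent.P.MP_b9f29c_an
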