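import Mathlib
import Pool.Agent.P.MP_b9f29c_an.Fock
import Pool.Agent.P.MP_b9f29c_an.Irrep

/-!
The unitized cone over the Cuntz-Toeplitz algebra.
-/

open scoped ComplexOrder InnerProductSpace CStarAlgebra unitInterval
open Finset Filter Topology

namespace Pool.Agent.P.MP_b9f29c_an

/-- Cut-off functions. -/
noncomputable def cut (m j : ℕ) (t : I) : ℝ := max 0 (min 1 (m * (t : ℝ) - j + 1))

/-- Hat functions. -/
noncomputable def hat (m j : ℕ) (t : I) : ℝ := cut m j t - cut m (j + 1) t

lemma continuous_hat (m j : ℕ) : Continuous (hat m j) := by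
  unfold hat cut
  fun_prop

lemma hat_nonneg (m j : ℕ) (t : I) : 0 ≤ hat m j t := by
  unfold hat cut
  rw [sub_nonneg]
  gcongr
  exact Nat.le_succ j

lemma sum_hat (m : ℕ) (t : I) : ∑ j ∈ range (m + 1), hat m j t = 1 := by
  unfold hat
  rw [sum_range_sub' (fun j => cut m j t)]
  have h0 : (0 : ℝ) ≤ m * (t : ℝ) := mul_nonneg (Nat.cast_nonneg m) t.2.1
  have h1 : m * (t : ℝ) ≤ m := mul_le_of_le_one_right (Nat.cast_nonneg m) t.2.2
  unfold cut
  rw [min_eq_left (by simpa using h0), max_eq_right zero_le_one,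
    max_eq_left (min_le_of_right_le (by push_cast; linarith)), sub_zero]

lemma hat_zero (m j : ℕ) (hj : j ≠ 0) : hat m j 0 = 0 := by
  have : (1 : ℝ) ≤ j := by exact_mod_cast Nat.one_le_iff_ne_zero.2 hj
  unfold hat cut
  rw [Set.Icc.coe_zero, mul_zero, max_eq_left (min_le_of_right_le (by linarith)),
    max_eq_left (min_le_of_right_le (by push_cast; linarith)), sub_zero]

lemma hat_support {m j : ℕ} {t : I} (h : hat m j t ≠ 0) : |m * (t : ℝ) - j| ≤ 1 := by
  by_contra hcon
  apply h
  unfold hat cut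
  rw [abs_le, not_and_or] at hcon
  push_cast
  rcases hcon with h1 | h1
  · rw [max_eq_left (min_le_of_right_le (by linarith)),
      max_eq_left (min_le_of_right_le (by linarith)), sub_zero]
  · rw [min_eq_left (by linarith), min_eq_left (by linarith), sub_self]

/-- The grid points. -/
noncomputable def grid (m : ℕ) (j : Fin (m + 1)) : I :=
  ⟨(j : ℕ) / (m : ℝ), by positivity, div_le_one_of_le₀ (by exact_mod_cast Nat.lt_succ_iff.1 j.2)
    (Nat.cast_nonneg m)⟩

lemma grid_zero (m : ℕ) : grid m 0 = 0 := by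
  ext
  simp [grid]

lemma dist_grid {m : ℕ} (hm : 0 < m) {j : Fin (m + 1)} {t : I} (h : hat m j t ≠ 0) :
    dist (grid m j) t ≤ 1 / (m : ℝ) := by
  have h1 := hat_support h
  have hm' : (0 : ℝ) < m := by exact_mod_cast hm
  rw [Subtype.dist_eq, Real.dist_eq, abs_sub_comm, le_div_iff₀ hm']
  have : ((t : ℝ) - (grid m j : ℝ)) * m = m * (t : ℝ) - (j : ℕ) := by
    simp only [grid]
    field_simp
  rw [← abs_of_pos hm', ← abs_mul, this]
  exact h1

namespace FockData

variable {H : Type} [NormedAddCommGroup H] [InnerProductSpace ℂ H] [CompleteSpace H]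
  (F : FockData H)

/-- The unitized cone: continuous paths in the Cuntz-Toeplitz algebra that start at a scalar. -/
noncomputable def cone : StarSubalgebra ℂ C(I, H →L[ℂ] H) where
  carrier := {f | (∀ t, f t ∈ F.alg) ∧ ∃ c : ℂ, f 0 = c • 1}
  mul_mem' := by
    rintro f g ⟨hf, c, hc⟩ ⟨hg, c', hc'⟩
    exact ⟨fun t => mul_mem (hf t) (hg t), c * c', by simp [hc, hc', smul_smul, mul_comm]⟩
  add_mem' := by
    rintro f g ⟨hf, c, hc⟩ ⟨hg, c', hc'⟩
    exact ⟨fun t => add_mem (hf t) (hg t), c + c', by simp [hc, hc', add_smul]⟩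
  algebraMap_mem' := fun c =>
    ⟨fun t => F.alg.algebraMap_mem c, c, by simp [Algebra.algebraMap_eq_smul_one]⟩
  star_mem' := by
    rintro f ⟨hf, c, hc⟩
    exact ⟨fun t => star_mem (hf t), star c, by simp [hc]⟩

lemma isClosed_cone : IsClosed (F.cone : Set C(I, H →L[ℂ] H)) := by
  have h1 : (F.cone : Set C(I, H →L[ℂ] H)) = (⋂ t, (fun f => f t) ⁻¹' (F.alg : Set (H →L[ℂ] H))) ∩
      (fun f => f 0) ⁻¹' (Submodule.span ℂ {(1 : H →L[ℂ] H)} : Set (H →L[ℂ] H)) := by
    ext f
    simp only [Set.mem_inter_iff, Set.mem_iInter, Set.mem_preimage, SetLike.mem_coe,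
      Submodule.mem_span_singleton]
    exact and_congr Iff.rfl (exists_congr fun c => eq_comm)
  rw [h1]
  refine IsClosed.inter (isClosed_iInter fun t => F.isClosed_alg.preimage
    (continuous_eval_const t)) ?_
  exact (Submodule.closed_of_finiteDimensional _).preimage (continuous_eval_const 0)

/-- The unitized cone as a type. -/
def Cone : Type := F.cone

noncomputable instance instCStarAlgebraCone : CStarAlgebra F.Cone :=
  StarSubalgebra.cstarAlgebra F.cone (h_closed := F.isClosed_cone)

lemma separable_cone : TopologicalSpace.SeparableSpace F.Cone := by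
  have h1 : TopologicalSpace.SeparableSpace F.alg := F.isSeparable_alg.separableSpace
  have h2 : SecondCountableTopology F.alg := UniformSpace.secondCountable_of_separable _
  let v : C(F.alg, H →L[ℂ] H) := ⟨Subtype.val, continuous_subtype_val⟩
  have h3 : TopologicalSpace.IsSeparable (Set.range fun g : C(I, F.alg) => v.comp g) :=
    TopologicalSpace.isSeparable_range (ContinuousMap.continuous_postcomp v)
  have h4 : TopologicalSpace.IsSeparable (F.cone : Set C(I, H →L[ℂ] H)) := by
    refine h3.mono ?_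
    intro f hf
    exact ⟨⟨fun t => ⟨f t, hf.1 t⟩, by fun_prop⟩, rfl⟩
  exact h4.separableSpace

/-- Evaluation at a point. -/
noncomputable def ev (t : I) : F.Cone →⋆ₐ[ℂ] (H →L[ℂ] H) where
  toFun f := f.1 t
  map_one' := rfl
  map_mul' _ _ := rfl
  map_zero' := rfl
  map_add' _ _ := rfl
  commutes' _ := rfl
  map_star' _ := rfl

lemma ev_apply (t : I) (f : F.Cone) : F.ev t f = f.1 t := rfl

lemma norm_le_of_ev {f : F.Cone} {C : ℝ} (hC : 0 ≤ C) (h : ∀ t, ‖F.ev t f‖ ≤ C) : ‖f‖ ≤ C :=
  (ContinuousMap.norm_le f.1 hC).2 h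

/-- The element `t ↦ g t • x` of the cone. -/
noncomputable def elt (g : C(I, ℝ)) (x : H →L[ℂ] H) (hx : x ∈ F.alg)
    (h0 : ∃ c : ℂ, g 0 • x = c • 1) : F.Cone :=
  ⟨⟨fun t => g t • x, by fun_prop⟩, fun t => by
    change g t • x ∈ F.alg
    rw [← Complex.coe_smul]
    exact F.alg.smul_mem hx _, h0⟩

lemma ev_elt (g x hx h0) (t : I) : F.ev t (F.elt g x hx h0) = g t • x := rfl

end FockData

/-- The properties of the unitized cone that are used below. -/
structure ConeData {H : Type} [NormedAddCommGroup H] [InnerProductSpace ℂ H] [CompleteSpace H]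
    (F : FockData H) (A : Type) [CStarAlgebra A] where
  ev : I → A →⋆ₐ[ℂ] (H →L[ℂ] H)
  cont : ∀ f, Continuous fun t => ev t f
  norm_le_of_ev : ∀ {f : A} {C : ℝ}, 0 ≤ C → (∀ t, ‖ev t f‖ ≤ C) → ‖f‖ ≤ C
  mem : ∀ f t, ev t f ∈ F.alg
  scalar : ∀ f, ∃ c : ℂ, ev 0 f = c • 1
  elt : ∀ (g : C(I, ℝ)) (x : H →L[ℂ] H), x ∈ F.alg → (∃ c : ℂ, g 0 • x = c • 1) → A
  ev_elt : ∀ g x hx h0 t, ev t (elt g x hx h0) = g t • x

variable {H : Type} [NormedAddCommGroup H] [InnerProductSpace ℂ H] [CompleteSpace H]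

lemma exists_coneData (F : FockData H) : ∃ (A : Type) (_ : CStarAlgebra A),
    TopologicalSpace.SeparableSpace A ∧ Nonempty (ConeData F A) :=
  ⟨F.Cone, F.instCStarAlgebraCone, F.separable_cone, ⟨⟨F.ev, fun f => f.1.continuous,
    F.norm_le_of_ev, fun f t => f.2.1 t, fun f => f.2.2, F.elt, F.ev_elt⟩⟩⟩

namespace ConeData

open FockData

variable {F : FockData H} {A : Type} [CStarAlgebra A] (C : ConeData F A)

lemma cone_ext {f g : A} (h : ∀ t, C.ev t f = C.ev t g) : f = g := by
  rw [← sub_eq_zero, ← norm_le_zero_iff]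
  exact C.norm_le_of_ev le_rfl fun t => by rw [map_sub, h, sub_self, norm_zero]

include C in
open scoped Matrix.Norms.Operator in
lemma stablyFinite_cone (n : ℕ) (v : Matrix (Fin n) (Fin n) A) (hv : star v * v = 1) :
    v * star v = 1 := by
  have := F.nontrivial
  let p : Matrix (Fin n) (Fin n) A := 1 - v * star v
  have hp : p * p = p := by
    have : v * star v * (v * star v) = v * star v := by
      rw [mul_assoc, ← mul_assoc (star v), hv, one_mul]
    simp only [p]
    rw [mul_sub, sub_mul, sub_mul, mul_one, one_mul, mul_one, this]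
    abel
  let E : I → Matrix (Fin n) (Fin n) A →+* Matrix (Fin n) (Fin n) (H →L[ℂ] H) :=
    fun t => (C.ev t : A →+* (H →L[ℂ] H)).mapMatrix
  have hE : ∀ t M i j, E t M i j = C.ev t (M i j) := fun t M i j => rfl
  have hcont : Continuous fun t => ‖E t p‖ := by
    refine continuous_norm.comp (continuous_pi fun i => continuous_pi fun j => ?_)
    exact C.cont (p i j)
  have hdich : ∀ t, ‖E t p‖ = 0 ∨ 1 ≤ ‖E t p‖ := by
    intro t
    have h1 : ‖E t p‖ ≤ ‖E t p‖ * ‖E t p‖ := by
      conv_lhs => rw [← hp, map_mul]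
      exact norm_mul_le _ _
    rcases (norm_nonneg (E t p)).eq_or_lt with h | h
    · exact Or.inl h.symm
    · exact Or.inr (by nlinarith)
  have h0 : E 0 p = 0 := by
    choose c hc using fun i j => C.scalar (v i j)
    let Z : Matrix (Fin n) (Fin n) ℂ := Matrix.of c
    let G : Matrix (Fin n) (Fin n) ℂ →+* Matrix (Fin n) (Fin n) (H →L[ℂ] H) :=
      (algebraMap ℂ (H →L[ℂ] H)).mapMatrix
    have hG : Function.Injective G :=
      Matrix.map_injective (algebraMap ℂ (H →L[ℂ] H)).injective
    have h1 : E 0 v = G Z := by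
      ext1 i j
      rw [hE, hc]
      simp [G, Z, Algebra.algebraMap_eq_smul_one]
    have h2 : E 0 (star v) = G (star Z) := by
      ext1 i j
      rw [hE, Matrix.star_apply, map_star, hc]
      simp [G, Z, Algebra.algebraMap_eq_smul_one]
    have h3 : star Z * Z = 1 := hG (by rw [map_mul, ← h1, ← h2, ← map_mul, hv, map_one, map_one])
    have h4 : Z * star Z = 1 := mul_eq_one_comm.1 h3
    simp only [p]
    rw [map_sub, map_one, map_mul, h1, h2, ← map_mul, h4, map_one, sub_self]
  have hall : ∀ t, E t p = 0 := by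
    intro t
    rcases hdich t with h | h
    · exact norm_eq_zero.1 h
    · obtain ⟨s, hs⟩ := intermediate_value_univ 0 t hcont
        (show (1 / 2 : ℝ) ∈ Set.Icc _ _ from ⟨by simp [h0], by linarith⟩)
      simp only at hs
      rcases hdich s with h' | h' <;> linarith
  have : p = 0 := by
    ext1 i j
    refine C.cone_ext fun t => ?_
    rw [← hE, hall]
    simp
  exact (sub_eq_zero.1 this).symm

include C in
theorem cpap_cone [PartialOrder A] [StarOrderedRing A] (G : Finset A) (ε : ℝ)
    (hε : 0 < ε) :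
    ∃ (n : ℕ) (φ : A →CP CStarMatrix (Fin n) (Fin n) ℂ)
      (ψ : CStarMatrix (Fin n) (Fin n) ℂ →CP A),
      (∀ x, ‖φ x‖ ≤ ‖x‖) ∧ (∀ y, ‖ψ y‖ ≤ ‖y‖) ∧ ∀ x ∈ G, ‖ψ (φ x) - x‖ < ε := by
  classical
  have := F.nontrivial
  -- the mesh
  have hunif : ∀ f ∈ G, ∀ᶠ m : ℕ in atTop, ∀ s t : I, dist s t ≤ 1 / (m : ℝ) →
      ‖C.ev s f - C.ev t f‖ ≤ ε / 3 := by
    intro f _
    obtain ⟨δ, hδ, h⟩ := Metric.uniformContinuous_iff.1
      (CompactSpace.uniformContinuous_of_continuous (C.cont f)) (ε / 3) (by positivity)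
    filter_upwards [tendsto_one_div_atTop_nhds_zero_nat.eventually_lt_const hδ] with m hm s t hst
    rw [← dist_eq_norm]
    exact (h (hst.trans_lt hm)).le
  obtain ⟨m, hm, hm0⟩ := (((eventually_all_finset G).2 hunif).and (eventually_gt_atTop 0)).exists
  -- the size of the matrices
  have happ : ∀ f ∈ G, ∀ᶠ n : ℕ in atTop, ∀ j : Fin (m + 1),
      ‖F.θ n (C.ev (grid m j) f) - C.ev (grid m j) f‖ ≤ ε / 3 := by
    intro f _
    rw [eventually_all]
    intro j
    have h := tendsto_iff_norm_sub_tendsto_zero.1 (F.tendsto_θ (C.mem f (grid m j)))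
    exact h.eventually_le_const (by positivity)
  obtain ⟨n, hn, hn0⟩ := (((eventually_all_finset G).2 happ).and (eventually_gt_atTop 0)).exists
  let μ₀ : wordsLt n := ⟨[], mem_wordsLt.2 hn0⟩
  let g : Fin (m + 1) → C(I, ℝ) := fun j =>
    ⟨fun t => √(hat m j t), (continuous_hat m j).sqrt⟩
  let c : Fin (m + 1) → Bool → wordsLt n → H →L[ℂ] H := fun j r μ =>
    if j = 0 then (if r = false ∧ μ = μ₀ then 1 else 0) else F.b n r μ
  have hc : ∀ j r μ, c j r μ ∈ F.alg := by
    intro j r μ
    simp only [c]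
    split_ifs
    exacts [one_mem _, zero_mem _, F.b_mem _ _ _]
  have hc0 : ∀ j r μ, ∃ z : ℂ, g j 0 • c j r μ = z • 1 := by
    intro j r μ
    simp only [c]
    split_ifs with h1 h2
    · exact ⟨_, (Complex.coe_smul _ _).symm⟩
    · exact ⟨0, by simp⟩
    · refine ⟨0, ?_⟩
      have : hat m j 0 = 0 := hat_zero m j (fun h => h1 (Fin.ext h))
      simp [g, this]
  let a : Fin (m + 1) → Bool → wordsLt n → A := fun j r μ =>
    C.elt (g j) (c j r μ) (hc j r μ) (hc0 j r μ)
  have hprod : ∀ t j r μ ν, C.ev t (a j r μ * star (a j r ν)) =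
      hat m j t • (c j r μ * star (c j r ν)) := by
    intro t j r μ ν
    rw [map_mul, map_star, C.ev_elt, C.ev_elt, star_smul, star_trivial, smul_mul_smul_comm]
    simp only [g, ContinuousMap.coe_mk]
    rw [Real.mul_self_sqrt (hat_nonneg m j t)]
  have hsum1 : ∀ t, ∑ j : Fin (m + 1), hat m j t = 1 := fun t => by
    rw [← sum_hat m t, Finset.sum_range]
  have hone : ∑ j, ∑ r, ∑ μ, a j r μ * star (a j r μ) = 1 := by
    refine C.cone_ext fun t => ?_
    simp only [map_sum, hprod, ← smul_sum]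
    have : ∀ j, ∑ r, ∑ μ, c j r μ * star (c j r μ) = 1 := by
      intro j
      by_cases hj : j = 0
      · simp [c, hj]
      · simp only [c, hj, if_false]
        exact F.sum_b_eq_one hn0
    simp only [this, ← sum_smul, hsum1, one_smul, map_one]
  obtain ⟨N, φ, ψ, h1, h2, h3⟩ := exists_cp_factor (A := A) (fun j => C.ev (grid m j)) _
    (F.orthonormal_e n) a (by
      rw [hone]
      exact C.norm_le_of_ev zero_le_one fun t => by rw [map_one, norm_one])
  refine ⟨N, φ, ψ, h1, h2, fun f hf => ?_⟩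
  let y : Fin (m + 1) → H →L[ℂ] H := fun j => ∑ r, ∑ μ : wordsLt n, ∑ ν : wordsLt n,
    ⟪F.e μ, C.ev (grid m j) f (F.e ν)⟫_ℂ • (c j r μ * star (c j r ν))
  have hy : ∀ j, ‖y j - C.ev (grid m j) f‖ ≤ ε / 3 := by
    intro j
    by_cases hj : j = 0
    · obtain ⟨z, hz⟩ := C.scalar f
      have e1 : C.ev (grid m j) f = z • 1 := by rw [hj, grid_zero, hz]
      have e2 : y j = z • 1 := by
        simp only [y, e1]
        simp only [c, hj, if_true, Fintype.sum_bool]
        rw [sum_eq_zero (by simp), zero_add, sum_eq_single μ₀ (by simp +contextual) (by simp),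
          sum_eq_single μ₀ (by simp +contextual) (by simp)]
        rw [ContinuousLinearMap.smul_apply, one_apply_eq_self, inner_smul_right, inner_e]
        simp
      rw [e1, e2, sub_self, norm_zero]
      positivity
    · have : y j = F.θ n (C.ev (grid m j) f) := by simp only [y, c, hj, if_false, θ]
      rw [this]
      exact hn f hf j
  have hev : ∀ t, C.ev t (ψ (φ f) - f) = ∑ j : Fin (m + 1), hat m j t • (y j - C.ev t f) := by
    intro t
    rw [map_sub, h3]
    simp only [map_sum, map_smul, hprod, smul_sub, sum_sub_distrib, ← sum_smul, hsum1, one_smul, y,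
      smul_sum, smul_comm (hat m _ t)]
  have hle : ‖ψ (φ f) - f‖ ≤ 2 * ε / 3 := by
    refine C.norm_le_of_ev (by positivity) fun t => ?_
    rw [hev]
    calc _ ≤ ∑ j : Fin (m + 1), hat m j t * (2 * ε / 3) := by
          refine norm_sum_le_of_le _ fun j _ => ?_
          rw [norm_smul, Real.norm_of_nonneg (hat_nonneg m j t)]
          by_cases h : hat m j t = 0
          · simp [h]
          · have h4 := hm f hf _ _ (dist_grid hm0 h)
            have h5 := norm_sub_le_norm_sub_add_norm_sub (y j) (C.ev (grid m j) f) (C.ev t f)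
            have h6 := hy j
            exact mul_le_mul_of_nonneg_left (by linarith) (hat_nonneg m j t)
      _ = 2 * ε / 3 := by rw [← sum_mul, hsum1, one_mul]
  linarith

/-- The lifts of the two isometries. -/
noncomputable def lift (i : Bool) : A :=
  C.elt ⟨fun t => t, continuous_subtype_val⟩ (F.S i) (F.S_mem i) ⟨0, by simp⟩

theorem exists_irrep_of_near (B : NonUnitalStarSubalgebra ℂ A)
    (hB : ∀ i, Metric.infDist (C.lift i) (B : Set A) < 1 / 10) :
    ∃ (K : Type) (_ : NormedAddCommGroup K) (_ : InnerProductSpace ℂ K) (_ : CompleteSpace K)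
      (π : B →⋆ₙₐ[ℂ] (K →L[ℂ] K)), (∃ a, π a ≠ 0) ∧
      (∀ L : Submodule ℂ K, IsClosed (L : Set K) → (∀ a, ∀ x ∈ L, π a x ∈ L) → L = ⊥ ∨ L = ⊤) ∧
      ∃ T : K →L[ℂ] K, IsCompactOperator T ∧ ∀ a, π a ≠ T := by
  have := F.nontrivial
  choose b hb hb' using fun i => (Metric.infDist_lt_iff ⟨0, zero_mem B⟩).1 (hB i)
  let X : Set (H →L[ℂ] H) := C.ev 1 '' (B : Set A)
  let D : StarSubalgebra ℂ (H →L[ℂ] H) := (StarAlgebra.adjoin ℂ X).topologicalClosure
  have hD : IsClosed (D : Set (H →L[ℂ] H)) := StarSubalgebra.isClosed_topologicalClosure _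
  have hXD : ∀ a : B, C.ev 1 a ∈ D := fun a =>
    StarSubalgebra.le_topologicalClosure _ (StarAlgebra.subset_adjoin ℂ _ ⟨a, a.2, rfl⟩)
  let ρ : B →⋆ₙₐ[ℂ] D :=
    { toFun := fun a => ⟨C.ev 1 a, hXD a⟩
      map_smul' := fun c a => Subtype.ext (map_smul (C.ev 1) c a.1)
      map_zero' := Subtype.ext (map_zero (C.ev 1))
      map_add' := fun a a' => Subtype.ext (map_add (C.ev 1) a.1 a'.1)
      map_mul' := fun a a' => Subtype.ext (map_mul (C.ev 1) a.1 a'.1)
      map_star' := fun a => Subtype.ext (map_star (C.ev 1) a.1) }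
  let s : Bool → D := fun i => ρ ⟨b i, hb i⟩
  have hS : ∀ i, ‖F.S i‖ ≤ 1 := fun i => by simpa [W] using F.norm_W_le [i]
  have hs : ∀ i, ‖(s i).1 - F.S i‖ ≤ 1 / 10 := by
    intro i
    have e1 : (s i).1 - F.S i = C.ev 1 (b i - C.lift i) := by
      rw [map_sub, lift, C.ev_elt]
      simp only [ContinuousMap.coe_mk, Set.Icc.coe_one, one_smul]
      rfl
    rw [e1]
    refine (NonUnitalStarAlgHom.norm_apply_le (C.ev 1) _).trans ?_
    rw [← dist_eq_norm, dist_comm]
    exact (hb' i).le
  have hss : ∀ i j, ‖star (s i).1 * (s j).1 - star (F.S i) * F.S j‖ ≤ 1 / 3 := by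
    intro i j
    have e1 : star (s i).1 * (s j).1 - star (F.S i) * F.S j =
        star ((s i).1 - F.S i) * ((s j).1 - F.S j) + star ((s i).1 - F.S i) * F.S j +
          star (F.S i) * ((s j).1 - F.S j) := by
      rw [star_sub]
      noncomm_ring
    rw [e1]
    have hm : ∀ (x y : H →L[ℂ] H) (u v : ℝ), ‖x‖ ≤ u → ‖y‖ ≤ v → ‖star x * y‖ ≤ u * v := by
      intro x y u v hx hy
      refine (norm_mul_le _ _).trans ?_
      rw [norm_star]
      exact mul_le_mul hx hy (norm_nonneg _) ((norm_nonneg _).trans hx)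
    have h1 := hm _ _ _ _ (hs i) (hs j)
    have h2 := hm _ _ _ _ (hs i) (hS j)
    have h3 := hm _ _ _ _ (hS i) (hs j)
    exact norm_add₃_le.trans (by linarith)
  have hs1 : ∀ i, ‖star (s i) * s i - 1‖ ≤ 1 / 3 := fun i => by
    have := hss i i
    rw [F.rel, if_pos rfl] at this
    exact this
  have hs2 : ‖star (s false) * s true‖ ≤ 1 / 3 := by
    have := hss false true
    rw [F.rel, if_neg (by simp), sub_zero] at this
    exact this
  obtain ⟨K, _, _, _, π, hK, hirr, T, hT, hT'⟩ :=
    exists_irrep (D := D) (s false) (s true) (hs1 false) (hs1 true) hs2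
  refine ⟨K, inferInstance, inferInstance, inferInstance,
    (π : D →⋆ₙₐ[ℂ] (K →L[ℂ] K)).comp ρ, ⟨⟨b false, hb false⟩, ?_⟩, ?_, T, hT, fun a => hT' _⟩
  · intro h0
    have h1 : π (s false) = 0 := h0
    have h2 := (NonUnitalStarAlgHom.norm_apply_le π _).trans (hs1 false)
    rw [map_sub, map_mul, h1, mul_zero, map_one, zero_sub, norm_neg, norm_one] at h2
    linarith
  · intro L hL hinv
    refine hirr L hL ?_
    let Y : Set D := {a | ∀ x ∈ L, π a x ∈ L}
    have hπ : Continuous π := (map_continuous π :)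
    have hY : IsClosed Y := by
      have : Y = ⋂ x ∈ L, (fun a => π a x) ⁻¹' (L : Set K) := by
        ext a
        simp [Y]
      rw [this]
      exact isClosed_biInter fun x _ => hL.preimage (by fun_prop)
    have hadj : ∀ z (hz : z ∈ StarAlgebra.adjoin ℂ X),
        (⟨z, StarSubalgebra.le_topologicalClosure _ hz⟩ : D) ∈ Y ∧
        star (⟨z, StarSubalgebra.le_topologicalClosure _ hz⟩ : D) ∈ Y := by
      intro z hz
      induction hz using StarAlgebra.adjoin_induction with
      | mem z hz =>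
        obtain ⟨a, ha, rfl⟩ := hz
        refine ⟨hinv ⟨a, ha⟩, ?_⟩
        have := hinv (star ⟨a, ha⟩)
        rw [map_star] at this
        intro x hx
        rw [map_star]
        exact this x hx
      | algebraMap c =>
        constructor
        · intro x hx
          change π (algebraMap ℂ D c) x ∈ L
          rw [AlgHomClass.commutes]
          exact L.smul_mem _ hx
        · intro x hx
          change π (star (algebraMap ℂ D c)) x ∈ L
          rw [← algebraMap_star_comm, AlgHomClass.commutes]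
          exact L.smul_mem _ hx
      | add u v hu hv ihu ihv =>
        constructor
        · intro x hx
          change π (⟨u, StarSubalgebra.le_topologicalClosure _ hu⟩ +
            ⟨v, StarSubalgebra.le_topologicalClosure _ hv⟩) x ∈ L
          rw [map_add]
          exact L.add_mem (ihu.1 x hx) (ihv.1 x hx)
        · intro x hx
          change π (star (⟨u, StarSubalgebra.le_topologicalClosure _ hu⟩ +
            ⟨v, StarSubalgebra.le_topologicalClosure _ hv⟩)) x ∈ L
          rw [star_add, map_add]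
          exact L.add_mem (ihu.2 x hx) (ihv.2 x hx)
      | mul u v hu hv ihu ihv =>
        constructor
        · intro x hx
          change π (⟨u, StarSubalgebra.le_topologicalClosure _ hu⟩ *
            ⟨v, StarSubalgebra.le_topologicalClosure _ hv⟩) x ∈ L
          rw [map_mul]
          exact ihu.1 _ (ihv.1 x hx)
        · intro x hx
          change π (star (⟨u, StarSubalgebra.le_topologicalClosure _ hu⟩ *
            ⟨v, StarSubalgebra.le_topologicalClosure _ hv⟩)) x ∈ L
          rw [star_mul, map_mul]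
          exact ihv.2 _ (ihu.2 x hx)
      | star u hu ihu =>
        refine ⟨ihu.2, ?_⟩
        intro x hx
        change π (star (star ⟨u, StarSubalgebra.le_topologicalClosure _ hu⟩)) x ∈ L
        rw [star_star]
        exact ihu.1 x hx
    intro a
    have ha : a ∈ closure (Subtype.val ⁻¹' (StarAlgebra.adjoin ℂ X : Set (H →L[ℂ] H)) : Set D) := by
      rw [closure_subtype]
      refine closure_mono ?_ a.2
      intro z hz
      exact ⟨⟨z, StarSubalgebra.le_topologicalClosure _ hz⟩, hz, rfl⟩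
    exact closure_minimal (fun z hz => (hadj z.1 hz).1) hY ha

end ConeData

end Pool.Agent.P.MP_b9f29c_an
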